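import Pool.Agent.R534.IC.Conv

/-!
# Index sets for differences of two `Π⁰₁` classes: finite and infinite cardinalities
-/

namespace Pool.R534.ID

open Encodable Pool.R534.IC

/-- `Q_b \ Q_a` for `m = ⟨a, b⟩` -/
def DD (π : ℕ → ℕ → Bool) (m : ℕ) : Set (ℕ → ℕ) :=
  Q π (Nat.unpair m).2 \ Q π (Nat.unpair m).1

/-- matrix of the `Σ⁰₂` definition of `|Q_b \ Q_a| ≥ c` -/
def RRD (π : ℕ → ℕ → Bool) (t : (ℕ × ℕ) × ℕ × ℕ) : Bool :=
  RR π ((t.1.1, (Nat.unpair t.1.2).2), t.2.1, t.2.2) &&
  decide (∀ i, i < t.1.1 →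
    (!V3 π ((Nat.unpair t.1.2).1, ind t.2.1 i, lev t.2.1)) = true)

theorem comp_RRD {π : ℕ → ℕ → Bool} (hπ : Computable₂ π) : Computable (RRD π) := by
  refine comp_and ?_ ?_
  · have h1 : Computable (fun t : (ℕ × ℕ) × ℕ × ℕ =>
        ((t.1.1, (Nat.unpair t.1.2).2), t.2.1, t.2.2)) :=
      ((Computable.fst.comp Computable.fst).pair (Computable.snd.comp (Computable.unpair.comp
        (Computable.snd.comp Computable.fst)))).pair Computable.snd
    have h2 := (comp_RR hπ).comp h1
    exact h2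
  · refine comp_ball (f := fun (t : (ℕ × ℕ) × ℕ × ℕ) i =>
      !V3 π ((Nat.unpair t.1.2).1, ind t.2.1 i, lev t.2.1)) ?_ (Computable.fst.comp Computable.fst)
    have h3 : Computable (V3 π) := comp_V hπ
    have h4 : Computable (fun r : ((ℕ × ℕ) × ℕ × ℕ) × ℕ =>
        ((Nat.unpair r.1.1.2).1, ind r.1.2.1 r.2, lev r.1.2.1)) := by
      have h5 : Computable (fun r : ((ℕ × ℕ) × ℕ × ℕ) × ℕ => r.1.2.1) :=
        Computable.fst.comp (Computable.snd.comp Computable.fst)
      exact (Computable.fst.comp (Computable.unpair.comp (Computable.snd.comp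
        (Computable.fst.comp Computable.fst)))).pair
        ((primrec_ind.to_comp.comp h5 Computable.snd).pair (primrec_lev.to_comp.comp h5))
    have h6 := comp_not (h3.comp h4)
    exact h6.to₂

theorem RRD_iff {π : ℕ → ℕ → Bool} {c m a b : ℕ} :
    RRD π ((c, m), a, b) = true ↔ RR π ((c, (Nat.unpair m).2), a, b) = true ∧
      ∀ i, i < c → V π (Nat.unpair m).1 (ind a i) (lev a) = false := by
  unfold RRD V3
  simp only [Bool.and_eq_true, decide_eq_true_eq, Bool.not_eq_true']

/-- `|Q_b \ Q_a| ≥ c` -/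
def GeD (π : ℕ → ℕ → Bool) (c : ℕ) : Set ℕ := {m | (c : ℕ∞) ≤ (DD π m).encard}

theorem V_mono {π : ℕ → ℕ → Bool} {e : ℕ} {f : ℕ → ℕ} (hf : ∀ n, f n < 2) {N M : ℕ}
    (h : N ≤ M) (hV : V π e (cd f M) M = true) : V π e (cd f N) N = true := by
  rw [V_iff] at hV ⊢
  intro j hj
  rw [bl_cd hf N j hj, ← bl_cd hf M j (by omega)]
  exact hV j (by omega)

theorem not_mem_Q {π : ℕ → ℕ → Bool} {e : ℕ} {f : ℕ → ℕ} (hf : ∀ n, f n < 2)
    (h : f ∉ Q π e) : ∃ N, ∀ M, N ≤ M → V π e (cd f M) M = false := by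
  by_contra hcon
  push Not at hcon
  apply h
  refine ⟨cls_iff.2 fun n => ?_, hf⟩
  obtain ⟨M, hM, hV⟩ := hcon n
  have hV' : V π e (cd f M) M = true := by simpa using hV
  rw [V_iff] at hV'
  have := hV' n hM
  rwa [bl_cd hf M n hM] at this

theorem geD_iff {π : ℕ → ℕ → Bool} {c m : ℕ} :
    m ∈ GeD π c ↔ ∃ a, ∀ b, RRD π ((c, m), a, b) = true := by
  constructor
  · intro h
    obtain ⟨t, hts, htc⟩ := Set.exists_subset_encard_eq (s := DD π m) h
    have htf : t.Finite := Set.finite_of_encard_eq_coe htc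
    have hcard : htf.toFinset.card = c := by
      have := htf.encard_eq_coe_toFinset_card
      rw [htc] at this
      exact_mod_cast this.symm
    let eqv := Finset.equivFinOfCardEq hcard
    let g : Fin c → (ℕ → ℕ) := fun i => (eqv.symm i).1
    have hgD : ∀ i, g i ∈ DD π m := fun i => hts (htf.mem_toFinset.1 (eqv.symm i).2)
    have hgQ : ∀ i, g i ∈ Q π (Nat.unpair m).2 := fun i => (hgD i).1
    have hginj : Function.Injective g := by
      intro i j hij
      exact eqv.symm.injective (Subtype.ext hij)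
    have hdiff : ∀ i j : Fin c, ∃ m, i ≠ j → g i m ≠ g j m := by
      intro i j
      by_cases hij : i = j
      · exact ⟨0, fun h => absurd hij h⟩
      · have : g i ≠ g j := fun h => hij (hginj h)
        obtain ⟨m, hm⟩ := Function.ne_iff.1 this
        exact ⟨m, fun _ => hm⟩
    choose mm hm using hdiff
    have hN : ∀ i, ∃ N, ∀ M, N ≤ M → V π (Nat.unpair m).1 (cd (g i) M) M = false :=
      fun i => not_mem_Q (hgQ i).2 (hgD i).2
    choose NN hNN using hN
    let n1 : ℕ := Finset.univ.sup (fun p : Fin c × Fin c => mm p.1 p.2 + 1)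
    let n2 : ℕ := Finset.univ.sup NN
    let n : ℕ := max n1 n2
    have hn : ∀ i j, mm i j < n := by
      intro i j
      have : mm i j + 1 ≤ n1 :=
        Finset.le_sup (f := fun p : Fin c × Fin c => mm p.1 p.2 + 1) (Finset.mem_univ (i, j))
      have h2 : n1 ≤ n := le_max_left _ _
      omega
    have hn2 : ∀ i, NN i ≤ n := fun i =>
      (Finset.le_sup (f := NN) (Finset.mem_univ i)).trans (le_max_right _ _)
    let G : ℕ → ℕ := fun i => if h : i < c then cd (g ⟨i, h⟩) n else 0
    have hG : ∀ i (h : i < c), G i = cd (g ⟨i, h⟩) n := fun i h => by simp [G, h]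
    refine ⟨encode (n, (List.range c).map G), fun b => ?_⟩
    have hlev : lev (encode (n, (List.range c).map G)) = n := by
      unfold lev
      rw [Denumerable.ofNat_encode]
    have hind : ∀ i (h : i < c), ind (encode (n, (List.range c).map G)) i
        = cd (g ⟨i, h⟩) n := by
      intro i h
      unfold ind
      rw [hlev, Denumerable.ofNat_encode]
      have : ((List.range c).map G).getD i 0 = G i := by
        simp [List.getD, h]
      rw [this, hG i h]
      exact Nat.mod_eq_of_lt (cd_lt (hgQ _).2 n)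
    rw [RRD_iff, RR_iff]
    refine ⟨⟨?_, ?_⟩, ?_⟩
    · intro i hi j hj heq
      have hjc : j < c := by omega
      rw [hind i hi, hind j hjc] at heq
      have hne : (⟨i, hi⟩ : Fin c) ≠ ⟨j, hjc⟩ := by
        intro h
        have := congrArg Fin.val h
        simp only at this
        omega
      have h1 := hm _ _ hne
      apply h1
      rw [← cd_digit (hgQ ⟨i, hi⟩).2 n _ (hn _ _), ← cd_digit (hgQ ⟨j, hjc⟩).2 n _ (hn _ _),
        heq]
    · intro i hi
      rw [hind i hi, hlev]
      refine ⟨cd (g ⟨i, hi⟩) (n + b) / 2 ^ n, ?_, ?_⟩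
      · apply Nat.div_lt_of_lt_mul
        rw [← pow_add]
        exact cd_lt (hgQ _).2 _
      · have h1 : cd (g ⟨i, hi⟩) n + 2 ^ n * (cd (g ⟨i, hi⟩) (n + b) / 2 ^ n)
            = cd (g ⟨i, hi⟩) (n + b) := by
          have := cd_mod (hgQ ⟨i, hi⟩).2 (n + b) n (by omega)
          rw [← this]
          exact Nat.mod_add_div _ _
        rw [h1]
        exact V_cd (hgQ _) _
    · intro i hi
      rw [hind i hi, hlev]
      exact hNN _ n (hn2 _)
  · rintro ⟨a, ha⟩
    have hlt : ∀ i, ind a i < 2 ^ lev a := fun i => Nat.mod_lt _ (by positivity)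
    have hk : ∀ i : Fin c, ∃ f ∈ Q π (Nat.unpair m).2, cd f (lev a) = ind a i := by
      intro i
      exact konig (fun b => (RR_iff.1 (RRD_iff.1 (ha b)).1).2 i i.2) (hlt i)
    choose g hgQ hg using hk
    have hginj : Function.Injective g := by
      intro i j hij
      have h1 : ind a i = ind a j := by rw [← hg i, ← hg j, hij]
      rcases Nat.lt_trichotomy i.1 j.1 with h | h | h
      · exact absurd h1.symm ((RR_iff.1 (RRD_iff.1 (ha 0)).1).1 j j.2 i h)
      · exact Fin.ext h
      · exact absurd h1 ((RR_iff.1 (RRD_iff.1 (ha 0)).1).1 i i.2 j h)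
    have h2 : (Set.range g).encard = c := by
      rw [← Set.image_univ, hginj.encard_image, Set.encard_univ]
      simp
    show (c : ℕ∞) ≤ (DD π m).encard
    rw [← h2]
    apply Set.encard_le_encard
    rintro _ ⟨i, rfl⟩
    refine ⟨hgQ i, fun hcon => ?_⟩
    have h3 := V_cd hcon (lev a)
    rw [hg i, (RRD_iff.1 (ha 0)).2 i i.2] at h3
    exact absurd h3 (by simp)

theorem uSigma2_geD {π : ℕ → ℕ → Bool} (hπ : Computable₂ π) : USigma2 (GeD π) :=
  ⟨RRD π, comp_RRD hπ, fun x => geD_iff (c := x.1) (m := x.2)⟩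

/-! ## Lower bound -/

theorem exists_zero {π : ℕ → ℕ → Bool} (hπ : EffEnum π) : ∃ a0, Q π a0 = {fun _ => 0} := by
  have hsum : Primrec (fun q : ℕ × ℕ => (Denumerable.ofNat (List ℕ) q.2).sum) := by
    have h : Primrec (fun q : ℕ × ℕ =>
        (Denumerable.ofNat (List ℕ) q.2).foldr (fun b s => b + s) 0) := by
      refine Primrec.list_foldr (h := fun (_ : ℕ × ℕ) (p : ℕ × ℕ) => p.1 + p.2)
        ((Primrec.ofNat (List ℕ)).comp Primrec.snd) (Primrec.const 0) ?_
      exact Primrec.nat_add.comp (Primrec.fst.comp Primrec.snd) (Primrec.snd.comp Primrec.snd)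
    exact h.of_eq fun q => List.sum_eq_foldr.symm
  have h1 : Primrec₂ (fun (_ m : ℕ) => decide ((Denumerable.ofNat (List ℕ) m).sum = 0)) :=
    (PrimrecRel.comp (R := fun a b : ℕ => a = b) Primrec.eq hsum (Primrec.const 0)).decide
  obtain ⟨f, -, hf⟩ := hπ.smn _ h1
  refine ⟨f 0, ?_⟩
  ext g
  rw [Set.mem_singleton_iff]
  constructor
  · rintro ⟨hg, hg2⟩
    funext i
    have h2 := cls_iff.1 hg (i + 1)
    rw [hf, decide_eq_true_eq, Denumerable.ofNat_encode] at h2
    rw [List.range_succ, List.map_append, List.sum_append] at h2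
    simp only [List.map_cons, List.map_nil, List.sum_cons, List.sum_nil, add_zero] at h2
    omega
  · rintro rfl
    refine ⟨cls_iff.2 fun n => ?_, fun n => by norm_num⟩
    rw [hf, decide_eq_true_eq, Denumerable.ofNat_encode]
    exact sum_zero n

/-- every uniformly `Σ⁰₂` sequence is realized by the cardinalities of differences -/
theorem card_realize {π : ℕ → ℕ → Bool} (hπ : EffEnum π) {E : ℕ → Set ℕ} (hE : USigma2 E) :
    ∃ f : ℕ → ℕ, Computable f ∧ ∀ x, (DD π (f x)).encard = {c : ℕ | x ∈ E c}.encard := by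
  obtain ⟨R, hR, h2⟩ := hE
  obtain ⟨a0, ha0⟩ := exists_zero hπ
  let dec : ℕ → (ℕ × ℕ) × ℕ × ℕ := fun n =>
    (((Nat.unpair (Nat.unpair n).1).1 - 2, (Nat.unpair (Nat.unpair (Nat.unpair n).1).2).1),
      (Nat.unpair (Nat.unpair (Nat.unpair n).1).2).2, (Nat.unpair n).2)
  have hdecc : Computable dec := by
    have u1 : Primrec (fun n : ℕ => Nat.unpair (Nat.unpair n).1) :=
      Primrec.unpair.comp (Primrec.fst.comp Primrec.unpair)
    have u2 : Primrec (fun n : ℕ => Nat.unpair (Nat.unpair (Nat.unpair n).1).2) :=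
      Primrec.unpair.comp (Primrec.snd.comp u1)
    exact (((Primrec.nat_sub.comp (Primrec.fst.comp u1) (Primrec.const 2)).pair
      (Primrec.fst.comp u2)).pair
      ((Primrec.snd.comp u2).pair (Primrec.snd.comp Primrec.unpair))).to_comp
  have hg : Computable (fun n : ℕ => R (dec n)) := hR.comp hdecc
  obtain ⟨S, hS, hmono, hs⟩ := exists_stage hg
  have hs' : ∀ c x, (∃ a, ∀ s, S (Nat.pair (c + 2) (Nat.pair x a)) s = true) ↔ x ∈ E c := by
    intro c x
    have h3 := h2 (c, x)
    simp only at h3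
    rw [h3]
    constructor
    · rintro ⟨a, ha⟩
      refine ⟨a, fun b => ?_⟩
      have := (hs _).1 ha b
      simpa [dec] using this
    · rintro ⟨a, ha⟩
      refine ⟨a, (hs _).2 fun b => ?_⟩
      have := ha b
      simpa [dec] using this
  have hS1 : Primrec₂ (fun _ _ : ℕ => true) := Primrec.const true
  obtain ⟨f, hf, hfπ⟩ := hπ.smn _ (prim_F hS1 hS)
  refine ⟨fun x => Nat.pair a0 (f x),
    Primrec₂.natPair.to_comp.comp (Computable.const a0) hf, fun x => ?_⟩
  unfold DD
  rw [Nat.unpair_pair, ha0]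
  rw [paths_eq (hfπ x) (fun _ => rfl)]
  have hnot : (fun _ => 0 : ℕ → ℕ) ∉ dl '' KK S x := by
    rintro ⟨k, -, hk⟩
    have := congrFun hk k
    simp [dl] at this
  have hd : (insert (fun _ => 0 : ℕ → ℕ) (dl '' KK S x)) \ {fun _ => 0} = dl '' KK S x := by
    ext g
    simp only [Set.mem_sdiff, Set.mem_insert_iff, Set.mem_singleton_iff]
    constructor
    · rintro ⟨h | h, h'⟩
      · exact absurd h h'
      · exact h
    · intro h
      refine ⟨Or.inr h, fun h' => hnot ?_⟩
      rwa [← h']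
  rw [hd, dl_inj.encard_image, ← (KK_inj (x := x) hmono).encard_image, KK_image hmono]
  congr 1
  ext c
  exact hs' c x

end Pool.R534.ID
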