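import Pool.Agent.R534.ID.Card

/-!
# Index sets for differences of two `Π⁰₁` classes: finite and infinite cardinalities
-/

namespace Pool.R534.ID

open Encodable Pool.R534.IC

/-- differences of two `Σ⁰₂` sets -/
def D2 (X : Set ℕ) : Prop := ∃ A B : Set ℕ, Sigma2 A ∧ Sigma2 B ∧ X = A \ B

/-- `X` is `Π⁰₃`. -/
def Pi3 (X : Set ℕ) : Prop :=
  ∃ R : ℕ × ℕ × ℕ × ℕ → Bool, Computable R ∧
    ∀ x, x ∈ X ↔ ∀ a, ∃ b, ∀ c, R (x, a, b, c) = true

theorem pi3_iff (X : Set ℕ) : Pi3 X ↔ Sigma3 Xᶜ := by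
  constructor
  · rintro ⟨R, hR, h⟩
    refine ⟨fun q => !R q, comp_not hR, fun x => ?_⟩
    show ¬ (x ∈ X) ↔ _
    rw [h x]
    push Not
    simp
  · rintro ⟨R, hR, h⟩
    refine ⟨fun q => !R q, comp_not hR, fun x => ?_⟩
    have := h x
    rw [← not_iff_not] at this
    have h2 : x ∈ X ↔ ¬ (x ∈ Xᶜ) := by simp
    rw [h2, this]
    push Not
    simp

theorem pi2_iff' (X : Set ℕ) : Pi2 X ↔ Sigma2 Xᶜ := pi2_iff X

theorem compl_complete {Γ Γ' : Set ℕ → Prop} (h : ∀ Y, Γ' Y ↔ Γ Yᶜ) {X : Set ℕ}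
    (hX : Complete Γ X) : Complete Γ' Xᶜ := by
  refine ⟨(h _).2 (by rw [compl_compl]; exact hX.1), fun Y hY => ?_⟩
  obtain ⟨f, hf, hfY⟩ := hX.2 _ ((h Y).1 hY)
  refine ⟨f, hf, fun x => ?_⟩
  show x ∈ Y ↔ ¬ (f x ∈ X)
  have h1 : ¬ (x ∈ Y) ↔ f x ∈ X := hfY x
  rw [← h1, not_not]

variable {π : ℕ → ℕ → Bool}

theorem sigma2_geD (hπ : EffEnum π) (c : ℕ) : Sigma2 (GeD π c) :=
  S2.comp (uSigma2_geD hπ.computable) (f := fun x : ℕ => (c, x))
    ((Computable.const _).pair Computable.id)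

theorem s2_lt {α : Type} [Primcodable α] {f g : α → ℕ} (hf : Computable f)
    (hg : Computable g) : S2 (fun a => f a < g a) := by
  have h := S2.of_computable (comp_dle (Computable.succ.comp hf) hg)
  refine h.of_iff fun a => ?_
  simp only [decide_eq_true_eq]
  exact Iff.rfl

theorem encard_lt_or (c : ℕ) (hc : 1 ≤ c) (p : Prop) [Decidable p] :
    ({i : ℕ | i < c ∧ (i + 1 < c ∨ p)} : Set ℕ).encard = if p then (c : ℕ∞) else ((c - 1 : ℕ) : ℕ∞)
    := by
  by_cases h : p
  · rw [if_pos h, ← encard_Iio c]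
    congr 1
    ext i
    simp only [Set.mem_ofPred_eq]
    tauto
  · rw [if_neg h, ← encard_Iio (c - 1)]
    congr 1
    ext i
    simp only [Set.mem_ofPred_eq]
    constructor
    · rintro ⟨h1, h2 | h2⟩
      · omega
      · exact absurd h2 h
    · intro h1
      exact ⟨by omega, Or.inl (by omega)⟩

theorem ge_complete (hπ : EffEnum π) (c : ℕ) (hc : 1 ≤ c) : Complete Sigma2 (GeD π c) := by
  classical
  refine ⟨sigma2_geD hπ c, fun X hX => ?_⟩
  have hE : USigma2 (fun i => {x | i < c ∧ (i + 1 < c ∨ x ∈ X)}) := by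
    show S2 (fun q : ℕ × ℕ => q.1 < c ∧ (q.1 + 1 < c ∨ q.2 ∈ X))
    exact S2.and (s2_lt Computable.fst (Computable.const c))
      (S2.or (s2_lt (Computable.succ.comp Computable.fst) (Computable.const c))
        (S2.comp hX Computable.snd))
  obtain ⟨f, hf, hfc⟩ := card_realize hπ hE
  refine ⟨f, hf, fun x => ?_⟩
  show x ∈ X ↔ (c : ℕ∞) ≤ (DD π (f x)).encard
  rw [hfc x]
  have := encard_lt_or c hc (x ∈ X)
  simp only [Set.mem_ofPred_eq] at this ⊢
  rw [this]
  split_ifs with h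
  · exact ⟨fun _ => le_rfl, fun _ => h⟩
  · refine ⟨fun h' => absurd h' h, fun h' => ?_⟩
    have : c ≤ c - 1 := by exact_mod_cast h'
    omega

theorem lt_complete (hπ : EffEnum π) (c : ℕ) (hc : 1 ≤ c) : Complete Pi2 (GeD π c)ᶜ :=
  compl_complete pi2_iff' (ge_complete hπ c hc)

theorem eq_complete (hπ : EffEnum π) (c : ℕ) (hc : 1 ≤ c) :
    Complete D2 (GeD π c \ GeD π (c + 1)) := by
  classical
  refine ⟨⟨_, _, sigma2_geD hπ c, sigma2_geD hπ (c + 1), rfl⟩, ?_⟩
  rintro X ⟨A, B, hA, hB, rfl⟩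
  have hE : USigma2 (fun i => {x | i + 1 < c ∨ (i < c ∧ x ∈ A) ∨
      (i < c + 1 ∧ x ∈ A ∧ x ∈ B)}) := by
    show S2 (fun q : ℕ × ℕ => q.1 + 1 < c ∨ (q.1 < c ∧ q.2 ∈ A) ∨
      (q.1 < c + 1 ∧ q.2 ∈ A ∧ q.2 ∈ B))
    exact S2.or (s2_lt (Computable.succ.comp Computable.fst) (Computable.const c))
      (S2.or (S2.and (s2_lt Computable.fst (Computable.const c)) (S2.comp hA Computable.snd))
        (S2.and (s2_lt Computable.fst (Computable.const (c + 1)))
          (S2.and (S2.comp hA Computable.snd) (S2.comp hB Computable.snd))))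
  obtain ⟨f, hf, hfc⟩ := card_realize hπ hE
  refine ⟨f, hf, fun x => ?_⟩
  show x ∈ A \ B ↔ (c : ℕ∞) ≤ (DD π (f x)).encard ∧ ¬ ((c + 1 : ℕ) : ℕ∞) ≤ (DD π (f x)).encard
  rw [hfc x]
  have key : ({i : ℕ | i + 1 < c ∨ (i < c ∧ x ∈ A) ∨ (i < c + 1 ∧ x ∈ A ∧ x ∈ B)}
      : Set ℕ) = {i | i < if x ∈ A then (if x ∈ B then c + 1 else c) else c - 1} := by
    ext i
    simp only [Set.mem_ofPred_eq]
    by_cases h1 : x ∈ A
    · by_cases h2 : x ∈ B
      · simp only [h1, h2, if_true, and_true]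
        omega
      · simp only [h1, h2, if_true, if_false, and_true, and_false, or_false]
        omega
    · simp only [h1, if_false, and_false, or_false, false_and]
      omega
  have key2 := congrArg Set.encard key
  rw [encard_Iio] at key2
  simp only [Set.mem_ofPred_eq] at key2 ⊢
  rw [key2]
  constructor
  · rintro ⟨h1, h2⟩
    rw [if_pos h1, if_neg h2]
    refine ⟨le_rfl, fun h => ?_⟩
    have : c + 1 ≤ c := by exact_mod_cast h
    omega
  · rintro ⟨h1, h2⟩
    by_cases h3 : x ∈ A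
    · by_cases h4 : x ∈ B
      · rw [if_pos h3, if_pos h4] at h2
        exact absurd le_rfl h2
      · exact ⟨h3, h4⟩
    · rw [if_neg h3] at h1
      have : c ≤ c - 1 := by exact_mod_cast h1
      omega

/-! ## Finite versus infinite -/

theorem finite_iff {m : ℕ} : (DD π m).Finite ↔ ∃ c, m ∉ GeD π c := by
  constructor
  · intro h
    refine ⟨(DD π m).ncard + 1, fun hc => ?_⟩
    have hc' : (((DD π m).ncard + 1 : ℕ) : ℕ∞) ≤ (DD π m).encard := hc
    rw [← h.cast_ncard_eq] at hc'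
    have : (DD π m).ncard + 1 ≤ (DD π m).ncard := by exact_mod_cast hc'
    omega
  · rintro ⟨c, hc⟩
    have : (DD π m).encard < (c : ℕ∞) := not_le.1 hc
    exact Set.finite_of_encard_le_coe this.le

theorem finite_complete (hπ : EffEnum π) : Complete Sigma3 {m | (DD π m).Finite} := by
  constructor
  · obtain ⟨R, hR, h⟩ := uSigma2_geD hπ.computable
    refine ⟨fun q => !R ((q.2.1, q.1), q.2.2.1, q.2.2.2), comp_not (hR.comp
      (((Computable.fst.comp Computable.snd).pair Computable.fst).pair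
        (Computable.snd.comp Computable.snd))), fun m => ?_⟩
    show (DD π m).Finite ↔ _
    rw [finite_iff]
    refine exists_congr fun c => ?_
    have h1 := h (c, m)
    simp only at h1
    rw [h1]
    push Not
    simp
  · rintro X ⟨R, hR, hX⟩
    have hP : S2 (fun q : ℕ × ℕ => ¬ ∀ b, ∃ d, R (q.1, q.2, b, d) = true) := by
      refine ⟨fun t => !R (t.1.1, t.1.2, t.2.1, t.2.2), comp_not (hR.comp
        ((Computable.fst.comp Computable.fst).pair ((Computable.snd.comp Computable.fst).pair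
          Computable.snd))), fun q => ?_⟩
      push Not
      simp
    have hE : USigma2 (fun k => {x | ∀ a, a < k + 1 → ¬ ∀ b, ∃ d, R (x, a, b, d) = true}) := by
      have h1 : S2 (fun r : (ℕ × ℕ) × ℕ => ¬ ∀ b, ∃ d, R (r.1.2, r.2, b, d) = true) :=
        S2.comp hP (f := fun r : (ℕ × ℕ) × ℕ => (r.1.2, r.2))
          ((Computable.snd.comp Computable.fst).pair Computable.snd)
      exact S2.ball h1 (Computable.succ.comp Computable.fst)
    obtain ⟨f, hf, hfc⟩ := card_realize hπ hE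
    refine ⟨f, hf, fun x => ?_⟩
    show x ∈ X ↔ (DD π (f x)).Finite
    rw [← Set.encard_lt_top_iff, hfc x, Set.encard_lt_top_iff, hX x]
    constructor
    · rintro ⟨a, ha⟩
      refine (Set.finite_Iio a).subset fun k hk => ?_
      rw [Set.mem_Iio]
      by_contra hcon
      exact hk a (by omega) ha
    · intro hfin
      by_contra hcon
      push Not at hcon
      refine Set.infinite_univ (α := ℕ) (hfin.subset fun k _ => ?_)
      intro a _ h
      obtain ⟨b, hb⟩ := hcon a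
      obtain ⟨d, hd⟩ := h b
      exact hb d hd

theorem infinite_complete (hπ : EffEnum π) : Complete Pi3 {m | (DD π m).Infinite} :=
  compl_complete pi3_iff (finite_complete hπ)

end Pool.R534.ID
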