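import Pool.Agent.R534.ID.UncLow
import Pool.Agent.R534.ID.Card2

/-!
# All the cardinality properties
-/

namespace Pool.R534.ID

open Encodable Pool.R534.IC Cardinal Filter

variable {π : ℕ → ℕ → Bool}

theorem nat_le_iff (c m : ℕ) : (c : Cardinal.{0}) ≤ #(DD π m) ↔ m ∈ GeD π c := by
  show _ ↔ (c : ℕ∞) ≤ (DD π m).encard
  unfold Set.encard ENat.card
  rw [Cardinal.natCast_le_toENat]

theorem mk_of_uncountable {m : ℕ} (h : ¬ (DD π m).Countable) : #(DD π m) = 𝔠 := by
  apply le_antisymm
  · refine (Cardinal.mk_set_le _).trans ?_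
    simp
  · obtain ⟨F, hF, hinj⟩ := inj_of_uncountable h
    have h1 : #(ℕ → Bool) ≤ #(DD π m) := by
      refine Cardinal.mk_le_of_injective (f := fun g => (⟨F g, hF ⟨g, rfl⟩⟩ : DD π m)) ?_
      intro g g' hg
      exact hinj (congrArg Subtype.val hg)
    refine le_trans (le_of_eq ?_) h1
    simp

theorem lt_mk_iff {κ : Cardinal.{0}} (h1 : ℵ₀ ≤ κ) (h2 : κ < 𝔠) (m : ℕ) :
    κ < #(DD π m) ↔ ¬ (DD π m).Countable := by
  constructor
  · intro h hc
    have := Cardinal.le_aleph0_iff_set_countable.2 hc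
    exact absurd (lt_of_lt_of_le h this) (not_lt.2 h1)
  · intro h
    rw [mk_of_uncountable h]
    exact h2

theorem le_mk_iff {κ : Cardinal.{0}} (h1 : ℵ₀ < κ) (h2 : κ ≤ 𝔠) (m : ℕ) :
    κ ≤ #(DD π m) ↔ ¬ (DD π m).Countable := by
  constructor
  · intro h hc
    have := Cardinal.le_aleph0_iff_set_countable.2 hc
    exact absurd (h.trans this) (not_le.2 h1)
  · intro h
    rw [mk_of_uncountable h]
    exact h2

theorem eq_mk_iff (m : ℕ) : #(DD π m) = 𝔠 ↔ ¬ (DD π m).Countable := by
  constructor
  · intro h hc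
    have := Cardinal.le_aleph0_iff_set_countable.2 hc
    rw [h] at this
    exact absurd this (not_le.2 Cardinal.aleph0_lt_continuum)
  · exact mk_of_uncountable

theorem ne_mk {κ : Cardinal.{0}} (h1 : ℵ₀ < κ) (h2 : κ < 𝔠) (m : ℕ) : #(DD π m) ≠ κ := by
  intro h
  by_cases hc : (DD π m).Countable
  · have := Cardinal.le_aleph0_iff_set_countable.2 hc
    rw [h] at this
    exact absurd this (not_le.2 h1)
  · rw [mk_of_uncountable hc] at h
    exact absurd h.symm h2.ne

theorem eq_aleph0_iff (m : ℕ) :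
    #(DD π m) = ℵ₀ ↔ (DD π m).Countable ∧ (DD π m).Infinite := by
  rw [le_antisymm_iff, Cardinal.le_aleph0_iff_set_countable]
  refine and_congr_right fun _ => ?_
  rw [← not_lt, Cardinal.lt_aleph0_iff_set_finite]
  rfl

/-- the union of a `Σ¹₁` set and a `Σ⁰₃` set is `Σ¹₁` -/
theorem sigma11_union {A B : Set ℕ} (hA : Sigma11 A) (hB : Sigma3 B) : Sigma11 (A ∪ B) := by
  obtain ⟨RA, hRA, hA⟩ := hA
  obtain ⟨RB, hRB, hB⟩ := hB
  have hP : Computable (fun q : ℕ × List ℕ × ℕ =>
      cond (decide (q.2.1.getD 0 0 = 0))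
        (RA (q.1, (List.range q.2.2).map (fun i => q.2.1.getD (i + 1) 0)))
        (RB (q.1, q.2.1.getD 1 0, q.2.2, q.2.1.getD (q.2.2 + 2) 0))) := by
    have hl : Primrec (fun q : ℕ × List ℕ × ℕ => q.2.1) := Primrec.fst.comp Primrec.snd
    have hp : Primrec (fun q : ℕ × List ℕ × ℕ => q.2.2) := Primrec.snd.comp Primrec.snd
    refine Computable.cond ?_ ?_ ?_
    · exact comp_deq (prim_getD hl (Primrec.const 0)).to_comp (Computable.const 0)
    · have h1 : Primrec₂ (fun (q : ℕ × List ℕ × ℕ) (i : ℕ) => q.2.1.getD (i + 1) 0) :=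
        prim_getD (hl.comp Primrec.fst) (Primrec.succ.comp Primrec.snd)
      have h2 : Primrec (fun q : ℕ × List ℕ × ℕ =>
          (List.range q.2.2).map (fun i => q.2.1.getD (i + 1) 0)) :=
        Primrec.list_map (Primrec.list_range.comp hp) h1
      exact hRA.comp (Computable.fst.pair h2.to_comp)
    · have h3 : Primrec (fun q : ℕ × List ℕ × ℕ => q.2.1.getD (q.2.2 + 2) 0) :=
        prim_getD hl (Primrec.nat_add.comp hp (Primrec.const 2))
      exact hRB.comp (Computable.fst.pair ((prim_getD hl (Primrec.const 1)).to_comp.pair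
        (hp.to_comp.pair h3.to_comp)))
  refine sigma11_of hP fun m => ?_
  have hev : ∀ (h : ℕ → ℕ) (p : ℕ), ∀ᶠ N in atTop,
      (cond (decide (((List.range N).map h).getD 0 0 = 0))
        (RA (m, (List.range p).map (fun i => ((List.range N).map h).getD (i + 1) 0)))
        (RB (m, ((List.range N).map h).getD 1 0, p, ((List.range N).map h).getD (p + 2) 0))) =
      cond (decide (h 0 = 0)) (RA (m, (List.range p).map (fun i => h (i + 1))))
        (RB (m, h 1, p, h (p + 2))) := by
    intro h p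
    have e1 := ev_getD h 0
    have e2 := ev_getD h 1
    have e3 := ev_getD h (p + 2)
    have e4 : ∀ᶠ N in atTop, ∀ i ∈ Set.Iio p,
        ((List.range N).map h).getD (i + 1) 0 = h (i + 1) :=
      (eventually_all_finite (Set.finite_Iio p)).2 fun i _ => ev_getD h _
    filter_upwards [e1, e2, e3, e4] with N g1 g2 g3 g4
    rw [g1, g2, g3]
    have : (List.range p).map (fun i => ((List.range N).map h).getD (i + 1) 0) =
        (List.range p).map (fun i => h (i + 1)) := by
      apply List.map_congr_left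
      intro i hi
      exact g4 i (List.mem_range.1 hi)
    rw [this]
  have hex : ∀ (h : ℕ → ℕ) (p : ℕ), (∃ N0, ∀ N, N0 ≤ N →
      (cond (decide (((List.range N).map h).getD 0 0 = 0))
        (RA (m, (List.range p).map (fun i => ((List.range N).map h).getD (i + 1) 0)))
        (RB (m, ((List.range N).map h).getD 1 0, p, ((List.range N).map h).getD (p + 2) 0)))
          = true) ↔
      cond (decide (h 0 = 0)) (RA (m, (List.range p).map (fun i => h (i + 1))))
        (RB (m, h 1, p, h (p + 2))) = true := by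
    intro h p
    obtain ⟨N1, hN1⟩ := eventually_atTop.1 (hev h p)
    constructor
    · rintro ⟨N0, hN0⟩
      rw [← hN1 (max N0 N1) (le_max_right _ _)]
      exact hN0 _ (le_max_left _ _)
    · intro h2
      refine ⟨N1, fun N hN => ?_⟩
      rw [hN1 N hN]
      exact h2
  show m ∈ A ∨ m ∈ B ↔ _
  simp only [hex]
  constructor
  · rintro (h | h)
    · obtain ⟨f, hf⟩ := (hA m).1 h
      refine ⟨fun i => if i = 0 then 0 else f (i - 1), fun p => ?_⟩
      simpa using hf p
    · obtain ⟨a, ha⟩ := (hB m).1 h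
      choose c hc using ha
      refine ⟨fun i => if i = 0 then 1 else if i = 1 then a else c (i - 2), fun p => ?_⟩
      simpa using hc p
  · rintro ⟨h, hh⟩
    by_cases h0 : h 0 = 0
    · left
      rw [hA m]
      refine ⟨fun i => h (i + 1), fun p => ?_⟩
      simpa [h0] using hh p
    · right
      rw [hB m]
      refine ⟨h 1, fun p => ⟨h (p + 2), ?_⟩⟩
      simpa [h0] using hh p

theorem uncountable_complete (hπ : EffEnum π) :
    Complete Sigma11 {m | ¬ (DD π m).Countable} := by
  refine ⟨sigma11_uncountable hπ.computable, fun X hX => ?_⟩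
  obtain ⟨f, hf, h1, -⟩ := unc_hard hπ hX
  exact ⟨f, hf, h1⟩

theorem countable_complete (hπ : EffEnum π) : Complete Pi11 {m | (DD π m).Countable} := by
  have h := compl_complete pi11_iff (uncountable_complete hπ)
  have e : ({m | ¬ (DD π m).Countable} : Set ℕ)ᶜ = {m | (DD π m).Countable} := by
    ext m
    simp
  rwa [e] at h

theorem denumerable_complete (hπ : EffEnum π) :
    Complete Pi11 {m | (DD π m).Countable ∧ (DD π m).Infinite} := by
  constructor
  · rw [pi11_iff]
    have h := sigma11_union (sigma11_uncountable hπ.computable) (finite_complete hπ).1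
    have e : ({m | (DD π m).Countable ∧ (DD π m).Infinite} : Set ℕ)ᶜ =
        {m | ¬ (DD π m).Countable} ∪ {m | (DD π m).Finite} := by
      ext m
      simp only [Set.mem_compl_iff, Set.mem_ofPred_eq, Set.mem_union, not_and_or,
        Set.not_infinite]
    rw [e]
    exact h
  · intro X hX
    obtain ⟨f, hf, h1, h2⟩ := unc_hard hπ ((pi11_iff X).1 hX)
    refine ⟨f, hf, fun x => ?_⟩
    have h3 : ¬ (x ∈ X) ↔ ¬ (DD π (f x)).Countable := h1 x
    show x ∈ X ↔ (DD π (f x)).Countable ∧ (DD π (f x)).Infinite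
    rw [not_iff_not.1 h3]
    exact ⟨fun h => ⟨h, h2 x⟩, fun h => h.1⟩

end Pool.R534.ID
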