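import Pool.Agent.R534.ID.Real

/-!
# The uniform measure on `2^ω`
-/

namespace Pool.R534.ID

open Encodable Pool.R534.IC MeasureTheory Filter Topology ENNReal

/-- the uniform probability measure on `{0, 1} ⊆ ℕ` -/
noncomputable def coin : Measure ℕ := (2⁻¹ : ℝ≥0∞) • (Measure.dirac 0 + Measure.dirac 1)

instance : IsProbabilityMeasure coin := by
  constructor
  unfold coin
  simp only [Measure.smul_apply, Measure.add_apply, measure_univ, smul_eq_mul]
  rw [show (1 : ℝ≥0∞) + 1 = 2 by norm_num]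
  exact ENNReal.inv_mul_cancel (by norm_num) (by norm_num)

/-- The uniform product measure on `2^ω = {f : ℕ → ℕ | ∀ n, f n < 2}`, as a measure on `ω^ω`. -/
noncomputable def mu : Measure (ℕ → ℕ) := Measure.infinitePi (fun _ : ℕ => coin)

instance : IsProbabilityMeasure mu := by
  unfold mu
  infer_instance

theorem coin_singleton {b : ℕ} (hb : b < 2) : coin {b} = 2⁻¹ := by
  unfold coin
  simp only [Measure.smul_apply, Measure.add_apply, smul_eq_mul]
  rw [Measure.dirac_apply' _ (measurableSet_singleton b),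
    Measure.dirac_apply' _ (measurableSet_singleton b)]
  interval_cases b <;> simp

/-- most significant first code of `f 0, ..., f (n - 1)` -/
def bc (f : ℕ → ℕ) : ℕ → ℕ
  | 0 => 0
  | n + 1 => 2 * bc f n + f n

/-- digits -/
def dg (v n i : ℕ) : ℕ := v / 2 ^ (n - 1 - i) % 2

theorem dg_lt (v n i : ℕ) : dg v n i < 2 := Nat.mod_lt _ (by norm_num)

theorem dg_succ {v n i : ℕ} (hi : i < n) : dg v (n + 1) i = dg (v / 2) n i := by
  unfold dg
  have h : n + 1 - 1 - i = (n - 1 - i) + 1 := by omega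
  rw [h, pow_succ', Nat.div_div_eq_div_mul]

theorem bc_iff {f : ℕ → ℕ} {n v : ℕ} : ((∀ i, i < n → f i < 2) ∧ bc f n = v) ↔
    (v < 2 ^ n ∧ ∀ i, i < n → f i = dg v n i) := by
  induction n generalizing v with
  | zero =>
    simp only [bc, pow_zero]
    constructor
    · rintro ⟨-, h⟩
      exact ⟨by omega, fun i hi => absurd hi (Nat.not_lt_zero i)⟩
    · rintro ⟨h, -⟩
      exact ⟨fun i hi => absurd hi (Nat.not_lt_zero i), by omega⟩
  | succ n ih =>
    have h1 := ih (v := v / 2)
    have hlast : dg v (n + 1) n = v % 2 := by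
      unfold dg
      simp
    constructor
    · rintro ⟨h2, h3⟩
      have h4 := h2 n (Nat.lt_succ_self n)
      simp only [bc] at h3
      obtain ⟨h5, h6⟩ := h1.1 ⟨fun i hi => h2 i (by omega), by omega⟩
      refine ⟨by rw [pow_succ]; omega, fun i hi => ?_⟩
      rcases Nat.lt_succ_iff_lt_or_eq.1 hi with h7 | h7
      · rw [dg_succ h7]
        exact h6 i h7
      · subst h7
        rw [hlast]
        omega
    · rintro ⟨h2, h3⟩
      have h4 : f n = v % 2 := by rw [h3 n (Nat.lt_succ_self n), hlast]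
      obtain ⟨h5, h6⟩ := h1.2 ⟨by rw [pow_succ] at h2; omega, fun i hi => by
        rw [h3 i (by omega), dg_succ hi]⟩
      refine ⟨fun i hi => ?_, ?_⟩
      · rcases Nat.lt_succ_iff_lt_or_eq.1 hi with h7 | h7
        · exact h5 i h7
        · subst h7
          omega
      · simp only [bc]
        omega

theorem bc_lt {f : ℕ → ℕ} {n : ℕ} (h : ∀ i, i < n → f i < 2) : bc f n < 2 ^ n :=
  (bc_iff.1 ⟨h, rfl⟩).1

/-- the cylinder of the binary string with code `v` -/
def cyl (n v : ℕ) : Set (ℕ → ℕ) := {f | (∀ i, i < n → f i < 2) ∧ bc f n = v}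

theorem cyl_eq {n v : ℕ} (hv : v < 2 ^ n) :
    cyl n v = Set.pi (Finset.range n : Set ℕ) (fun i => {dg v n i}) := by
  ext f
  show (∀ i, i < n → f i < 2) ∧ bc f n = v ↔ _
  rw [bc_iff]
  simp [Set.mem_pi, hv]

theorem measurable_cyl (n v : ℕ) : MeasurableSet (cyl n v) := by
  by_cases hv : v < 2 ^ n
  · rw [cyl_eq hv]
    exact MeasurableSet.pi (Finset.range n).countable_toSet fun i _ => measurableSet_singleton _
  · have : cyl n v = ∅ := by
      rw [Set.eq_empty_iff_forall_notMem]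
      rintro f ⟨h1, h2⟩
      exact hv (h2 ▸ bc_lt h1)
    rw [this]
    exact MeasurableSet.empty

theorem mu_cyl {n v : ℕ} (hv : v < 2 ^ n) : mu (cyl n v) = 2⁻¹ ^ n := by
  rw [cyl_eq hv]
  unfold mu
  rw [Measure.infinitePi_pi _ (fun i _ => measurableSet_singleton _)]
  rw [Finset.prod_congr rfl (fun i _ => coin_singleton (dg_lt v n i))]
  simp

/-- the clopen set given by a predicate on codes of strings of length `n` -/
def clo (n : ℕ) (p : ℕ → Bool) : Set (ℕ → ℕ) :=
  {f | (∀ i, i < n → f i < 2) ∧ p (bc f n) = true}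

/-- number of `v < N` with `p v` -/
def num (p : ℕ → Bool) (N : ℕ) : ℕ := ((Finset.range N).filter (fun v => p v = true)).card

theorem clo_eq (n : ℕ) (p : ℕ → Bool) :
    clo n p = ⋃ v ∈ (Finset.range (2 ^ n)).filter (fun v => p v = true), cyl n v := by
  ext f
  simp only [Set.mem_iUnion, Finset.mem_filter, Finset.mem_range, exists_prop]
  constructor
  · rintro ⟨h1, h2⟩
    exact ⟨bc f n, ⟨bc_lt h1, h2⟩, h1, rfl⟩
  · rintro ⟨v, ⟨-, h2⟩, h3, h4⟩
    exact ⟨h3, by rw [h4]; exact h2⟩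

theorem measurable_clo (n : ℕ) (p : ℕ → Bool) : MeasurableSet (clo n p) := by
  rw [clo_eq]
  exact Finset.measurableSet_biUnion _ fun v _ => measurable_cyl n v

theorem mu_clo (n : ℕ) (p : ℕ → Bool) : mu (clo n p) = (num p (2 ^ n) : ℝ≥0∞) * 2⁻¹ ^ n := by
  rw [clo_eq, measure_biUnion_finset]
  · rw [Finset.sum_congr rfl (fun v hv => mu_cyl (Finset.mem_range.1 (Finset.mem_filter.1 hv).1))]
    rw [Finset.sum_const, nsmul_eq_mul]
    rfl
  · intro v _ w _ hvw
    rw [Function.onFun, Set.disjoint_left]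
    rintro f ⟨-, h1⟩ ⟨-, h2⟩
    exact hvw (h1.symm.trans h2)
  · exact fun v _ => measurable_cyl n v

theorem real_clo (n : ℕ) (p : ℕ → Bool) : mu.real (clo n p) = (num p (2 ^ n) : ℝ) / 2 ^ n := by
  unfold Measure.real
  rw [mu_clo]
  simp [div_eq_mul_inv]

/-- `2^ω` -/
def BB : Set (ℕ → ℕ) := {f | ∀ n, f n < 2}

theorem mu_BB : mu BBᶜ = 0 := by
  have h1 : BBᶜ ⊆ ⋃ n, (clo n (fun _ => true))ᶜ := by
    intro f hf
    have hf' : ¬ ∀ n, f n < 2 := hf
    push Not at hf'
    obtain ⟨n, hn⟩ := hf'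
    rw [Set.mem_iUnion]
    refine ⟨n + 1, fun h => ?_⟩
    have := h.1 n (Nat.lt_succ_self n)
    omega
  refine measure_mono_null h1 (measure_iUnion_null fun n => ?_)
  rw [prob_compl_eq_zero_iff (measurable_clo _ _), mu_clo]
  have : num (fun _ => true) (2 ^ n) = 2 ^ n := by
    unfold num
    simp
  rw [this]
  push_cast
  rw [← mul_pow, ENNReal.mul_inv_cancel (by norm_num) (by norm_num), one_pow]

end Pool.R534.ID
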