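import Pool.Agent.R534.ID.Meas

/-!
# Measures of differences are differences of left-c.e. reals
-/

namespace Pool.R534.ID

open Encodable Pool.R534.IC MeasureTheory Filter Topology ENNReal

variable {π : ℕ → ℕ → Bool}

theorem num_succ (p : ℕ → Bool) (N : ℕ) : num p (N + 1) = num p N + (p N).toNat := by
  unfold num
  rw [Finset.range_add_one, Finset.filter_insert]
  split_ifs with h
  · rw [Finset.card_insert_of_notMem (by simp), h]
    rfl
  · have : p N = false := by simpa using h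
    rw [this]
    rfl

theorem comp_num {α : Type} [Primcodable α] {f : α → ℕ → Bool} {n : α → ℕ}
    (hf : Computable₂ f) (hn : Computable n) : Computable (fun a => num (f a) (n a)) := by
  have h : Computable (fun a => Nat.rec (motive := fun _ => ℕ) 0
      (fun i r => cond (f a i) (r + 1) r) (n a)) := by
    refine Computable.nat_rec (h := fun a (p : ℕ × ℕ) => cond (f a p.1) (p.2 + 1) p.2) hn
      (Computable.const 0) ?_
    have h1 : Computable (fun q : α × (ℕ × ℕ) => cond (f q.1 q.2.1) (q.2.2 + 1) q.2.2) :=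
      Computable.cond (hf.comp Computable.fst (Computable.fst.comp Computable.snd))
        (Computable.succ.comp (Computable.snd.comp Computable.snd))
        (Computable.snd.comp Computable.snd)
    exact h1
  refine h.of_eq fun a => ?_
  generalize n a = m
  induction m with
  | zero => rfl
  | succ m ih =>
    show cond (f a m) (_ + 1) _ = _
    rw [ih, num_succ]
    cases f a m <;> rfl

/-- reals approximated from below, uniformly -/
def ULCE (α : ℕ → ℝ) : Prop :=
  ∃ a : ℕ → ℕ → ℕ, Computable₂ a ∧ (∀ x n, 2 * a x n ≤ a x (n + 1)) ∧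
    ∀ x, Tendsto (fun n => (a x n : ℝ) / 2 ^ n) atTop (𝓝 (α x))

theorem div_mono {a : ℕ → ℕ} (h : ∀ n, 2 * a n ≤ a (n + 1)) :
    Monotone (fun n => (a n : ℝ) / 2 ^ n) := by
  refine monotone_nat_of_le_succ fun n => ?_
  rw [pow_succ, div_le_div_iff₀ (by positivity) (by positivity)]
  have h1 : (2 * a n : ℝ) ≤ a (n + 1) := by exact_mod_cast h n
  have h2 : (0 : ℝ) < 2 ^ n := by positivity
  nlinarith

theorem le_lim {a : ℕ → ℕ} (h : ∀ n, 2 * a n ≤ a (n + 1)) {α : ℝ}
    (hα : Tendsto (fun n => (a n : ℝ) / 2 ^ n) atTop (𝓝 α)) (n : ℕ) :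
    (a n : ℝ) / 2 ^ n ≤ α :=
  (div_mono h).ge_of_tendsto hα n

/-- the general computation -/
theorem measure_diff_lim {S : Set (ℕ → ℕ)} {p q : ℕ → ℕ → Bool}
    (hp : ∀ n (f : ℕ → ℕ), f ∈ BB → p n (bc f n) = true → p (n + 1) (bc f (n + 1)) = true)
    (hq : ∀ n (f : ℕ → ℕ), f ∈ BB → q n (bc f n) = true → q (n + 1) (bc f (n + 1)) = true)
    (hqp : ∀ n (f : ℕ → ℕ), f ∈ BB → q n (bc f n) = true → p n (bc f n) = true)
    (hS : ∀ f, f ∈ S ↔ f ∈ BB ∧ (∃ n, p n (bc f n) = true) ∧ ∀ n, q n (bc f n) = false) :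
    ∃ u w : ℝ, 0 ≤ w ∧ w ≤ u ∧ u ≤ 1 ∧
      Tendsto (fun n => (num (p n) (2 ^ n) : ℝ) / 2 ^ n) atTop (𝓝 u) ∧
      Tendsto (fun n => (num (q n) (2 ^ n) : ℝ) / 2 ^ n) atTop (𝓝 w) ∧
      (∀ n, 2 * num (p n) (2 ^ n) ≤ num (p (n + 1)) (2 ^ (n + 1))) ∧
      (∀ n, 2 * num (q n) (2 ^ n) ≤ num (q (n + 1)) (2 ^ (n + 1))) ∧
      mu.real S = u - w := by
  have hmeas : MeasurableSet BB := by
    have : BB = ⋂ n, clo n (fun _ => true) := by
      ext f
      rw [Set.mem_iInter]
      constructor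
      · intro h n
        exact ⟨fun i _ => h i, rfl⟩
      · intro h n
        exact (h (n + 1)).1 n (Nat.lt_succ_self n)
    rw [this]
    exact MeasurableSet.iInter fun n => measurable_clo _ _
  have hreal : ∀ (r : ℕ → ℕ → Bool) (n : ℕ),
      mu.real (clo n (r n) ∩ BB) = (num (r n) (2 ^ n) : ℝ) / 2 ^ n := by
    intro r n
    rw [← real_clo]
    unfold Measure.real
    rw [measure_inter_conull mu_BB]
  have hmono : ∀ (r : ℕ → ℕ → Bool), (∀ n (f : ℕ → ℕ), f ∈ BB → r n (bc f n) = true →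
      r (n + 1) (bc f (n + 1)) = true) → Monotone (fun n => clo n (r n) ∩ BB) := by
    intro r hr
    refine monotone_nat_of_le_succ fun n => ?_
    rintro f ⟨⟨-, h1⟩, h2⟩
    exact ⟨⟨fun i _ => h2 i, hr n f h2 h1⟩, h2⟩
  have hlim : ∀ (r : ℕ → ℕ → Bool), (∀ n (f : ℕ → ℕ), f ∈ BB → r n (bc f n) = true →
      r (n + 1) (bc f (n + 1)) = true) → Tendsto (fun n => (num (r n) (2 ^ n) : ℝ) / 2 ^ n) atTop
        (𝓝 (mu.real (⋃ n, clo n (r n) ∩ BB))) := by
    intro r hr
    have h1 := tendsto_measure_iUnion_atTop (μ := mu) (hmono r hr)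
    have h2 := (ENNReal.tendsto_toReal (measure_ne_top mu (⋃ n, clo n (r n) ∩ BB))).comp h1
    refine h2.congr fun n => ?_
    exact hreal r n
  have hdbl : ∀ (r : ℕ → ℕ → Bool), (∀ n (f : ℕ → ℕ), f ∈ BB → r n (bc f n) = true →
      r (n + 1) (bc f (n + 1)) = true) → ∀ n,
        2 * num (r n) (2 ^ n) ≤ num (r (n + 1)) (2 ^ (n + 1)) := by
    intro r hr n
    have h1 : mu.real (clo n (r n) ∩ BB) ≤ mu.real (clo (n + 1) (r (n + 1)) ∩ BB) :=
      measureReal_mono (hmono r hr (Nat.le_succ n))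
    rw [hreal, hreal] at h1
    generalize num (r (n + 1)) (2 ^ (n + 1)) = B at h1 ⊢
    generalize num (r n) (2 ^ n) = A at h1 ⊢
    rw [pow_succ, div_le_div_iff₀ (by positivity) (by positivity)] at h1
    have h2 : (0 : ℝ) < 2 ^ n := by positivity
    have h3 : (2 * A : ℝ) ≤ B := le_of_mul_le_mul_right (by linarith) h2
    exact_mod_cast h3
  have hsub : (⋃ n, clo n (q n) ∩ BB) ⊆ ⋃ n, clo n (p n) ∩ BB := by
    refine Set.iUnion_mono fun n => ?_
    rintro f ⟨⟨h1, h2⟩, h3⟩
    exact ⟨⟨h1, hqp n f h3 h2⟩, h3⟩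
  refine ⟨mu.real (⋃ n, clo n (p n) ∩ BB), mu.real (⋃ n, clo n (q n) ∩ BB),
    measureReal_nonneg, measureReal_mono hsub, measureReal_le_one, hlim p hp, hlim q hq,
    hdbl p hp, hdbl q hq, ?_⟩
  rw [← measureReal_sdiff hsub (MeasurableSet.iUnion fun n => (measurable_clo _ _).inter hmeas)]
  congr 1
  ext f
  rw [hS f]
  simp only [Set.mem_sdiff, Set.mem_iUnion, Set.mem_inter_iff, not_exists]
  constructor
  · rintro ⟨h1, ⟨n, h2⟩, h3⟩
    refine ⟨⟨n, ⟨fun i _ => h1 i, h2⟩, h1⟩, fun k hk => ?_⟩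
    have h4 := hk.1.2
    rw [h3 k] at h4
    exact absurd h4 (by simp)
  · rintro ⟨⟨n, h1, h2⟩, h3⟩
    refine ⟨h2, ⟨n, h1.2⟩, fun k => ?_⟩
    by_contra hcon
    exact h3 k ⟨⟨fun i _ => h2 i, by simpa using hcon⟩, h2⟩

/-! ## Upper bound -/

/-- the string with code `v` is in the tree -/
def WW (π : ℕ → ℕ → Bool) (e v n : ℕ) : Bool :=
  decide (∀ j, j < n + 1 → π e (encode ((List.range j).map (dg v n))) = true)

theorem WW_iff {e n : ℕ} {f : ℕ → ℕ} (hf : f ∈ BB) :
    WW π e (bc f n) n = true ↔ ∀ j, j ≤ n → π e (encode ((List.range j).map f)) = true := by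
  unfold WW
  rw [decide_eq_true_eq]
  have h1 := (bc_iff (f := f) (n := n) (v := bc f n)).1 ⟨fun i _ => hf i, rfl⟩
  have h2 : ∀ j, j ≤ n → (List.range j).map (dg (bc f n) n) = (List.range j).map f := by
    intro j hj
    apply List.map_congr_left
    intro i hi
    rw [List.mem_range] at hi
    exact (h1.2 i (by omega)).symm
  constructor
  · intro h j hj
    rw [← h2 j hj]
    exact h j (Nat.lt_succ_of_le hj)
  · intro h j hj
    rw [h2 j (Nat.le_of_lt_succ hj)]
    exact h j (Nat.le_of_lt_succ hj)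

theorem prim_dg {α : Type} [Primcodable α] {v n i : α → ℕ} (hv : Primrec v) (hn : Primrec n)
    (hi : Primrec i) : Primrec (fun a => dg (v a) (n a) (i a)) :=
  Primrec.nat_mod.comp (Primrec.nat_div.comp hv (primrec_pow.comp (Primrec.const 2)
    (Primrec.nat_sub.comp (Primrec.nat_sub.comp hn (Primrec.const 1)) hi))) (Primrec.const 2)

theorem comp_WW (hπ : Computable₂ π) {α : Type} [Primcodable α] {e v n : α → ℕ}
    (he : Computable e) (hv : Computable v) (hn : Computable n) :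
    Computable (fun a => WW π (e a) (v a) (n a)) := by
  have h0 : Computable (fun q : ℕ × ℕ × ℕ => WW π q.1 q.2.1 q.2.2) := by
    refine comp_ball (f := fun (q : ℕ × ℕ × ℕ) j =>
      π q.1 (encode ((List.range j).map (dg q.2.1 q.2.2)))) ?_
      (Computable.succ.comp (Computable.snd.comp Computable.snd))
    have h1 : Primrec (fun r : (ℕ × ℕ × ℕ) × ℕ => (List.range r.2).map (dg r.1.2.1 r.1.2.2)) := by
      have h2 : Primrec₂ (fun (r : (ℕ × ℕ × ℕ) × ℕ) (i : ℕ) => dg r.1.2.1 r.1.2.2 i) :=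
        prim_dg (Primrec.fst.comp (Primrec.snd.comp (Primrec.fst.comp Primrec.fst)))
          (Primrec.snd.comp (Primrec.snd.comp (Primrec.fst.comp Primrec.fst))) Primrec.snd
      exact Primrec.list_map (Primrec.list_range.comp Primrec.snd) h2
    have h3 := hπ.comp (Computable.fst.comp (Computable.fst (α := ℕ × ℕ × ℕ) (β := ℕ)))
      (Primrec.encode.comp h1).to_comp
    exact h3.to₂
  have h4 := h0.comp (he.pair (hv.pair hn))
  exact h4

/-- the measures of differences of two `Π⁰₁` classes are uniformly differences of left-c.e.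
reals -/
theorem measure_upper (hπ : Computable₂ π) : ∃ α β : ℕ → ℝ, ULCE α ∧ ULCE β ∧
    ∀ m, 0 ≤ β m ∧ β m ≤ α m ∧ α m ≤ 1 ∧ mu.real (DD π m) = α m - β m := by
  have key : ∀ m, ∃ u w : ℝ, 0 ≤ w ∧ w ≤ u ∧ u ≤ 1 ∧
      Tendsto (fun n => (num (fun v => !WW π (Nat.unpair m).1 v n) (2 ^ n) : ℝ) / 2 ^ n) atTop
        (𝓝 u) ∧
      Tendsto (fun n => (num (fun v => !WW π (Nat.unpair m).1 v n &&
        !WW π (Nat.unpair m).2 v n) (2 ^ n) : ℝ) / 2 ^ n) atTop (𝓝 w) ∧
      (∀ n, 2 * num (fun v => !WW π (Nat.unpair m).1 v n) (2 ^ n) ≤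
        num (fun v => !WW π (Nat.unpair m).1 v (n + 1)) (2 ^ (n + 1))) ∧
      (∀ n, 2 * num (fun v => !WW π (Nat.unpair m).1 v n && !WW π (Nat.unpair m).2 v n) (2 ^ n) ≤
        num (fun v => !WW π (Nat.unpair m).1 v (n + 1) && !WW π (Nat.unpair m).2 v (n + 1))
          (2 ^ (n + 1))) ∧
      mu.real (DD π m) = u - w := by
    intro m
    have hW : ∀ e n (f : ℕ → ℕ), f ∈ BB → WW π e (bc f n) n = false →
        ∀ k, n ≤ k → WW π e (bc f k) k = false := by
      intro e n f hf h k hk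
      by_contra hcon
      have h1 : WW π e (bc f k) k = true := by simpa using hcon
      rw [WW_iff hf] at h1
      have h2 : WW π e (bc f n) n = true := (WW_iff hf).2 fun j hj => h1 j (by omega)
      rw [h] at h2
      exact absurd h2 (by simp)
    refine measure_diff_lim (p := fun n v => !WW π (Nat.unpair m).1 v n)
      (q := fun n v => !WW π (Nat.unpair m).1 v n && !WW π (Nat.unpair m).2 v n) ?_ ?_ ?_ ?_
    · intro n f hf h
      simp only [Bool.not_eq_true'] at h ⊢
      exact hW _ n f hf h _ (Nat.le_succ n)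
    · intro n f hf h
      simp only [Bool.and_eq_true, Bool.not_eq_true'] at h ⊢
      exact ⟨hW _ n f hf h.1 _ (Nat.le_succ n), hW _ n f hf h.2 _ (Nat.le_succ n)⟩
    · intro n f hf h
      simp only [Bool.and_eq_true] at h
      exact h.1
    · intro f
      have hQ : ∀ e, f ∈ BB → (f ∈ Q π e ↔ ∀ n, WW π e (bc f n) n = true) := by
        intro e hf
        constructor
        · intro h n
          exact (WW_iff hf).2 fun j _ => cls_iff.1 h.1 j
        · intro h
          exact ⟨cls_iff.2 fun n => (WW_iff hf).1 (h n) n le_rfl, hf⟩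
      constructor
      · rintro ⟨h1, h2⟩
        have hf : f ∈ BB := h1.2
        rw [hQ _ hf] at h1 h2
        push Not at h2
        obtain ⟨n, hn⟩ := h2
        refine ⟨hf, ⟨n, by simpa using hn⟩, fun k => ?_⟩
        rw [h1 k]
        simp
      · rintro ⟨hf, ⟨n, hn⟩, h3⟩
        have hn' : WW π (Nat.unpair m).1 (bc f n) n = false := by simpa using hn
        refine ⟨(hQ _ hf).2 fun k => ?_, fun h => ?_⟩
        · by_contra hcon
          have hcon' : WW π (Nat.unpair m).2 (bc f k) k = false := by simpa using hcon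
          have h4 := h3 (max n k)
          rw [hW _ n f hf hn' _ (le_max_left _ _), hW _ k f hf hcon' _ (le_max_right _ _)] at h4
          exact absurd h4 (by simp)
        · rw [hQ _ hf] at h
          rw [h n] at hn'
          exact absurd hn' (by simp)
  choose α β h1 h2 h3 h4 h5 h6 h7 h8 using key
  have hpow : Computable (fun q : ℕ × ℕ => 2 ^ q.2) :=
    (primrec_pow.comp (Primrec.const 2) Primrec.snd).to_comp
  have ha : Computable (fun q : ℕ × ℕ => (Nat.unpair q.1).1) :=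
    (Primrec.fst.comp (Primrec.unpair.comp Primrec.fst)).to_comp
  have hb : Computable (fun q : ℕ × ℕ => (Nat.unpair q.1).2) :=
    (Primrec.snd.comp (Primrec.unpair.comp Primrec.fst)).to_comp
  have hWa : Computable (fun r : (ℕ × ℕ) × ℕ => !WW π (Nat.unpair r.1.1).1 r.2 r.1.2) :=
    comp_not (comp_WW hπ (ha.comp Computable.fst) Computable.snd
      (Computable.snd.comp Computable.fst))
  have hWb : Computable (fun r : (ℕ × ℕ) × ℕ => !WW π (Nat.unpair r.1.1).2 r.2 r.1.2) :=
    comp_not (comp_WW hπ (hb.comp Computable.fst) Computable.snd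
      (Computable.snd.comp Computable.fst))
  refine ⟨α, β, ⟨fun m n => num (fun v => !WW π (Nat.unpair m).1 v n) (2 ^ n), ?_, h6, h4⟩,
    ⟨fun m n => num (fun v => !WW π (Nat.unpair m).1 v n && !WW π (Nat.unpair m).2 v n) (2 ^ n),
      ?_, h7, h5⟩, fun m => ⟨h1 m, h2 m, h3 m, h8 m⟩⟩
  · have h9 := comp_num (f := fun (q : ℕ × ℕ) v => !WW π (Nat.unpair q.1).1 v q.2)
      (n := fun q => 2 ^ q.2) hWa.to₂ hpow
    exact h9.to₂
  · have h10 := comp_and hWa hWb
    have h9 := comp_num (f := fun (q : ℕ × ℕ) v => !WW π (Nat.unpair q.1).1 v q.2 &&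
      !WW π (Nat.unpair q.1).2 v q.2) (n := fun q => 2 ^ q.2) h10.to₂ hpow
    exact h9.to₂

end Pool.R534.ID
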