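import Pool.Agent.R534.ID.Meas2
import Pool.Agent.R534.ID.Card2

/-!
# Index sets for measure properties
-/

namespace Pool.R534.ID

open Encodable Pool.R534.IC MeasureTheory Filter Topology

variable {π : ℕ → ℕ → Bool}

/-! ## Realization -/

/-- code of a binary list, most significant digit first -/
def code (σ : List ℕ) : ℕ := σ.foldl (fun s b => 2 * s + b) 0

theorem code_res (f : ℕ → ℕ) (n : ℕ) : code ((List.range n).map f) = bc f n := by
  induction n with
  | zero => rfl
  | succ n ih =>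
    unfold code at ih ⊢
    rw [List.range_succ, List.map_append, List.foldl_append, ih]
    rfl

theorem prim_code : Primrec code := by
  have h1 : Primrec₂ (fun (_ : List ℕ) (p : ℕ × ℕ) => 2 * p.1 + p.2) :=
    Primrec.nat_add.comp (Primrec.nat_mul.comp (Primrec.const 2) (Primrec.fst.comp Primrec.snd))
      (Primrec.snd.comp Primrec.snd)
  exact Primrec.list_foldl (f := fun σ : List ℕ => σ) (g := fun _ => (0 : ℕ))
    Primrec.id (Primrec.const _) h1

theorem num_lt {c N : ℕ} (h : c ≤ N) : num (fun v => decide (v + 1 ≤ c)) N = c := by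
  unfold num
  have : (Finset.range N).filter (fun v => decide (v + 1 ≤ c) = true) = Finset.range c := by
    ext v
    simp only [Finset.mem_filter, Finset.mem_range, decide_eq_true_eq]
    omega
  rw [this, Finset.card_range]

theorem measure_realize (hπ : EffEnum π) {α β : ℕ → ℝ} (hα : ULCE α) (hβ : ULCE β)
    (h : ∀ x, β x ≤ α x ∧ α x ≤ 1) :
    ∃ f : ℕ → ℕ, Computable f ∧ ∀ x, mu.real (DD π (f x)) = α x - β x := by
  obtain ⟨a, ha, ha2, haα⟩ := hα
  obtain ⟨b0, hb0, hb02, hb0β⟩ := hβ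
  let b : ℕ → ℕ → ℕ := fun x n => min (b0 x n) (a x n)
  have hb : Computable₂ b := by
    have h1 : Computable (fun q : ℕ × ℕ => min (b0 q.1 q.2) (a q.1 q.2)) :=
      Primrec.nat_min.to_comp.comp hb0 ha
    exact h1.to₂
  have hb2 : ∀ x n, 2 * b x n ≤ b x (n + 1) := by
    intro x n
    have h1 := ha2 x n
    have h2 := hb02 x n
    show 2 * min (b0 x n) (a x n) ≤ min (b0 x (n + 1)) (a x (n + 1))
    omega
  have hbβ : ∀ x, Tendsto (fun n => (b x n : ℝ) / 2 ^ n) atTop (𝓝 (β x)) := by
    intro x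
    have h1 := (hb0β x).min (haα x)
    rw [min_eq_left (h x).1] at h1
    refine h1.congr fun n => ?_
    show _ = ((min (b0 x n) (a x n) : ℕ) : ℝ) / 2 ^ n
    rw [Nat.cast_min, min_div_div_right (by positivity)]
  have hale : ∀ x n, a x n ≤ 2 ^ n := by
    intro x n
    have h1 := (le_lim (ha2 x) (haα x) n).trans (h x).2
    rw [div_le_one (by positivity)] at h1
    exact_mod_cast h1
  have hble : ∀ x n, b x n ≤ 2 ^ n := fun x n => (min_le_right _ _).trans (hale x n)
  have hR : ∀ c : ℕ → ℕ → ℕ, Computable₂ c →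
      Computable₂ (fun (x : ℕ) (σ : List ℕ) => decide (c x σ.length ≤ code σ)) := by
    intro c hc
    have h1 : Computable (fun q : ℕ × List ℕ => c q.1 q.2.length) :=
      hc.comp Computable.fst (Primrec.list_length.comp Primrec.snd).to_comp
    have h2 := comp_dle h1 (prim_code.comp (Primrec.snd (α := ℕ) (β := List ℕ))).to_comp
    exact h2.to₂
  obtain ⟨fa, hfa, hQa⟩ := realize hπ (hR a ha)
  obtain ⟨fb, hfb, hQb⟩ := realize hπ (hR b hb)
  refine ⟨fun x => Nat.pair (fa x) (fb x), Primrec₂.natPair.to_comp.comp hfa hfb, fun x => ?_⟩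
  have hstep : ∀ c : ℕ → ℕ → ℕ, (∀ x n, 2 * c x n ≤ c x (n + 1)) → ∀ n (f : ℕ → ℕ), f ∈ BB →
      decide (bc f n + 1 ≤ c x n) = true → decide (bc f (n + 1) + 1 ≤ c x (n + 1)) = true := by
    intro c hc n f hf h1
    rw [decide_eq_true_eq] at h1 ⊢
    have h2 := hc x n
    have h3 : f n < 2 := hf n
    simp only [bc]
    omega
  obtain ⟨u, w, -, -, -, hu, hw, -, -, hD⟩ := measure_diff_lim
    (S := DD π (Nat.pair (fa x) (fb x)))
    (p := fun n v => decide (v + 1 ≤ a x n)) (q := fun n v => decide (v + 1 ≤ b x n))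
    (hstep a ha2) (hstep b hb2)
    (by
      intro n f _ h1
      rw [decide_eq_true_eq] at h1 ⊢
      exact h1.trans (min_le_right _ _))
    (by
      intro f
      unfold DD
      rw [Nat.unpair_pair, hQa, hQb]
      simp only [Set.mem_sdiff, Set.mem_ofPred_eq, List.length_map, List.length_range, code_res,
        decide_eq_true_eq, decide_eq_false_iff_not, not_and]
      constructor
      · rintro ⟨⟨h1, h2⟩, h3⟩
        refine ⟨h2, ?_, fun n => ?_⟩
        · by_contra hcon
          push Not at hcon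
          exact h3 (fun n => by have := hcon n; omega) h2
        · have := h1 n
          omega
      · rintro ⟨h1, ⟨n, h2⟩, h3⟩
        refine ⟨⟨fun k => ?_, h1⟩, fun h4 => ?_⟩
        · have := h3 k
          omega
        · have := h4 n
          omega)
  rw [hD]
  have h1 : u = α x := by
    refine tendsto_nhds_unique hu ((haα x).congr fun n => ?_)
    rw [num_lt (hale x n)]
  have h2 : w = β x := by
    refine tendsto_nhds_unique hw ((hbβ x).congr fun n => ?_)
    rw [num_lt (hble x n)]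
  rw [h1, h2]

/-! ## Closure properties -/

theorem ULCE.add {α β : ℕ → ℝ} (hα : ULCE α) (hβ : ULCE β) : ULCE (fun x => α x + β x) := by
  obtain ⟨a, ha, ha2, haα⟩ := hα
  obtain ⟨b, hb, hb2, hbβ⟩ := hβ
  refine ⟨fun x n => a x n + b x n, Primrec.nat_add.to_comp.comp₂ ha hb, fun x n => ?_,
    fun x => ?_⟩
  · have h1 := ha2 x n
    have h2 := hb2 x n
    show 2 * (a x n + b x n) ≤ a x (n + 1) + b x (n + 1)
    omega
  · refine ((haα x).add (hbβ x)).congr fun n => ?_
    push_cast
    ring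

theorem ULCE.scale {α : ℕ → ℝ} (hα : ULCE α) (k : ℕ) : ULCE (fun x => α x / 2 ^ k) := by
  obtain ⟨a, ha, ha2, haα⟩ := hα
  refine ⟨fun x n => cond (decide (k ≤ n)) (a x (n - k)) 0, ?_, fun x n => ?_, fun x => ?_⟩
  · have h1 : Computable (fun q : ℕ × ℕ => decide (k ≤ q.2)) :=
      comp_dle (Computable.const k) Computable.snd
    have h2 : Computable (fun q : ℕ × ℕ => a q.1 (q.2 - k)) :=
      ha.comp Computable.fst (Primrec.nat_sub.comp Primrec.snd (Primrec.const k)).to_comp
    exact (Computable.cond h1 h2 (Computable.const 0)).to₂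
  · rcases Nat.lt_or_ge n k with h | h
    · simp [not_le.2 h]
    · have h1 : k ≤ n + 1 := by omega
      simp only [h, h1, decide_true, cond_true]
      have h2 : n + 1 - k = (n - k) + 1 := by omega
      rw [h2]
      exact ha2 x _
  · have h1 : Tendsto (fun n => (a x n : ℝ) / 2 ^ n / 2 ^ k) atTop (𝓝 (α x / 2 ^ k)) :=
      (haα x).div_const _
    rw [← tendsto_add_atTop_iff_nat k]
    refine h1.congr fun n => ?_
    have h2 : k ≤ n + k := by omega
    simp only [h2, decide_true, cond_true, Nat.add_sub_cancel]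
    rw [pow_add, div_div]

theorem ULCE.dyadic (p k : ℕ) : ULCE (fun _ => (p : ℝ) / 2 ^ k) := by
  have h : ULCE (fun _ => (p : ℝ)) := by
    refine ⟨fun _ n => p * 2 ^ n, ?_, fun x n => ?_, fun x => ?_⟩
    · exact (Primrec.nat_mul.comp (Primrec.const p)
        (primrec_pow.comp (Primrec.const 2) Primrec.snd)).to_comp.to₂
    · show 2 * (p * 2 ^ n) ≤ p * 2 ^ (n + 1)
      rw [pow_succ]
      apply le_of_eq
      ring
    · refine tendsto_const_nhds.congr fun n => ?_
      push_cast
      field_simp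
  exact h.scale k

theorem cast_tsub' (m n : ℕ) : ((m - n : ℕ) : ℝ) = max ((m : ℝ) - n) 0 := by
  rcases Nat.le_total n m with h | h
  · rw [Nat.cast_sub h, max_eq_left]
    rw [sub_nonneg]
    exact_mod_cast h
  · rw [Nat.sub_eq_zero_of_le h, max_eq_right]
    · simp
    · rw [sub_nonpos]
      exact_mod_cast h

theorem ULCE.sub {α : ℕ → ℝ} (hα : ULCE α) (p k : ℕ) (h : ∀ x, (p : ℝ) / 2 ^ k ≤ α x) :
    ULCE (fun x => α x - (p : ℝ) / 2 ^ k) := by
  obtain ⟨a, ha, ha2, haα⟩ := hα
  refine ⟨fun x n => cond (decide (k ≤ n)) (a x n - p * 2 ^ (n - k)) 0, ?_, fun x n => ?_,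
    fun x => ?_⟩
  · have h1 : Computable (fun q : ℕ × ℕ => decide (k ≤ q.2)) :=
      comp_dle (Computable.const k) Computable.snd
    have h3 : Computable (fun q : ℕ × ℕ => p * 2 ^ (q.2 - k)) :=
      (Primrec.nat_mul.comp (Primrec.const p) (primrec_pow.comp (Primrec.const 2)
        (Primrec.nat_sub.comp Primrec.snd (Primrec.const k)))).to_comp
    have h2 : Computable (fun q : ℕ × ℕ => a q.1 q.2 - p * 2 ^ (q.2 - k)) :=
      Primrec.nat_sub.to_comp.comp ha h3
    exact (Computable.cond h1 h2 (Computable.const 0)).to₂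
  · rcases Nat.lt_or_ge n k with h | h
    · simp [not_le.2 h]
    · have h1 : k ≤ n + 1 := by omega
      simp only [h, h1, decide_true, cond_true]
      have h2 : n + 1 - k = (n - k) + 1 := by omega
      have h3 : p * 2 ^ ((n - k) + 1) = 2 * (p * 2 ^ (n - k)) := by rw [pow_succ]; ring
      rw [h2, h3]
      have := ha2 x n
      omega
  · have h1 : Tendsto (fun n => max ((a x n : ℝ) / 2 ^ n - (p : ℝ) / 2 ^ k) 0) atTop
        (𝓝 (max (α x - (p : ℝ) / 2 ^ k) 0)) :=
      ((haα x).sub_const _).max tendsto_const_nhds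
    rw [max_eq_left (sub_nonneg.2 (h x))] at h1
    refine h1.congr' ?_
    filter_upwards [eventually_ge_atTop k] with n hn
    simp only [hn, decide_true, cond_true]
    rw [cast_tsub']
    have h2 : (0 : ℝ) < 2 ^ n := by positivity
    have h3 : (2 : ℝ) ^ n = 2 ^ (n - k) * 2 ^ k := by
      rw [← pow_add]
      congr 1
      omega
    have h4 : (p : ℝ) / 2 ^ k = (p * 2 ^ (n - k)) / 2 ^ n := by
      rw [h3]
      field_simp
    rw [h4, ← sub_div, max_div_div_right' h2]
    push_cast
    rfl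
where
  max_div_div_right' {y : ℝ} {c : ℝ} (hc : 0 < c) : max (y / c) 0 = max y 0 / c := by
    rw [← max_div_div_right hc.le, zero_div]

theorem ULCE.comp {α : ℕ → ℝ} (hα : ULCE α) {g : ℕ → ℕ} (hg : Computable g) :
    ULCE (fun x => α (g x)) := by
  obtain ⟨a, ha, ha2, haα⟩ := hα
  exact ⟨fun x n => a (g x) n, (ha.comp (hg.comp Computable.fst) Computable.snd).to₂,
    fun x n => ha2 (g x) n, fun x => haα (g x)⟩

/-! ## Comparison -/

theorem sigma2_lt {α β : ℕ → ℝ} (hα : ULCE α) (hβ : ULCE β) : Sigma2 {x | β x < α x} := by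
  obtain ⟨a, ha, ha2, haα⟩ := hα
  obtain ⟨b, hb, hb2, hbβ⟩ := hβ
  refine ⟨fun q => decide (2 ^ ((Nat.unpair q.2.1).2 + q.2.2) + 2 ^ (Nat.unpair q.2.1).1 *
    b q.1 ((Nat.unpair q.2.1).2 + q.2.2) ≤
    2 ^ (Nat.unpair q.2.1).1 * a q.1 ((Nat.unpair q.2.1).2 + q.2.2)), ?_, fun x => ?_⟩
  · have hk : Computable (fun q : ℕ × ℕ × ℕ => 2 ^ (Nat.unpair q.2.1).1) :=
      (primrec_pow.comp (Primrec.const 2) (Primrec.fst.comp (Primrec.unpair.comp
        (Primrec.fst.comp Primrec.snd)))).to_comp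
    have hn' : Primrec (fun q : ℕ × ℕ × ℕ => (Nat.unpair q.2.1).2 + q.2.2) :=
      Primrec.nat_add.comp (Primrec.snd.comp (Primrec.unpair.comp
        (Primrec.fst.comp Primrec.snd))) (Primrec.snd.comp Primrec.snd)
    have hn2 : Computable (fun q : ℕ × ℕ × ℕ => 2 ^ ((Nat.unpair q.2.1).2 + q.2.2)) :=
      (primrec_pow.comp (Primrec.const 2) hn').to_comp
    have hbb : Computable (fun q : ℕ × ℕ × ℕ => b q.1 ((Nat.unpair q.2.1).2 + q.2.2)) :=
      hb.comp Computable.fst hn'.to_comp
    have haa : Computable (fun q : ℕ × ℕ × ℕ => a q.1 ((Nat.unpair q.2.1).2 + q.2.2)) :=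
      ha.comp Computable.fst hn'.to_comp
    exact comp_dle (Primrec.nat_add.to_comp.comp hn2 (Primrec.nat_mul.to_comp.comp hk hbb))
      (Primrec.nat_mul.to_comp.comp hk haa)
  · show β x < α x ↔ _
    simp only [decide_eq_true_eq]
    constructor
    · intro h
      obtain ⟨k, hk⟩ := exists_pow_lt_of_lt_one (sub_pos.2 h) (show (1 / 2 : ℝ) < 1 by norm_num)
      have h1 : Tendsto (fun n => (a x n : ℝ) / 2 ^ n - (b x n : ℝ) / 2 ^ n) atTop
          (𝓝 (α x - β x)) := (haα x).sub (hbβ x)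
      obtain ⟨n0, hn0⟩ := eventually_atTop.1 (h1.eventually (eventually_gt_nhds hk))
      refine ⟨Nat.pair k n0, fun n => ?_⟩
      rw [Nat.unpair_pair]
      simp only
      have h2 := hn0 (n0 + n) (by omega)
      generalize n0 + n = N at h2 ⊢
      have h3 : (0 : ℝ) < 2 ^ N := by positivity
      have h4 : (0 : ℝ) < 2 ^ k := by positivity
      rw [← sub_div, one_div, inv_pow, lt_div_iff₀ h3, inv_mul_lt_iff₀ h4] at h2
      have h5 : ((2 ^ N + 2 ^ k * b x N : ℕ) : ℝ) ≤ ((2 ^ k * a x N : ℕ) : ℝ) := by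
        push_cast
        nlinarith
      exact_mod_cast h5
    · rintro ⟨t, ht⟩
      generalize (Nat.unpair t).1 = k at ht
      generalize (Nat.unpair t).2 = n0 at ht
      have h1 : Tendsto (fun n => (a x n : ℝ) / 2 ^ n - (b x n : ℝ) / 2 ^ n) atTop
          (𝓝 (α x - β x)) := (haα x).sub (hbβ x)
      have h2 : (1 : ℝ) / 2 ^ k ≤ α x - β x := by
        refine ge_of_tendsto h1 ?_
        filter_upwards [eventually_ge_atTop n0] with N hN
        have h3 := ht (N - n0)
        rw [Nat.add_sub_cancel' hN] at h3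
        have h5 : ((2 ^ N + 2 ^ k * b x N : ℕ) : ℝ) ≤ ((2 ^ k * a x N : ℕ) : ℝ) := by
          exact_mod_cast h3
        push_cast at h5
        have h6 : (0 : ℝ) < 2 ^ N := by positivity
        have h4 : (0 : ℝ) < 2 ^ k := by positivity
        rw [← sub_div, div_le_div_iff₀ h4 h6]
        nlinarith
      have h3 : (0 : ℝ) < 1 / 2 ^ k := by positivity
      linarith

end Pool.R534.ID
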