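import Pool.Agent.R534.ID.Meas3

/-!
# Index sets for measure properties
-/

namespace Pool.R534.ID

open Encodable Pool.R534.IC MeasureTheory Filter Topology

variable {π : ℕ → ℕ → Bool}

/-! ## Reals with a given digit set -/

open Classical in
/-- the real `∑_{i ∈ A} 2^{-i-1}` -/
noncomputable def dreal (A : Set ℕ) : ℝ := ∑' i, if i ∈ A then (1 / 2 : ℝ) ^ (i + 1) else 0

theorem summable_half : Summable (fun i : ℕ => (1 / 2 : ℝ) ^ (i + 1)) := by
  have h := (summable_geometric_of_lt_one (r := (1 / 2 : ℝ)) (by norm_num) (by norm_num))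
  exact (summable_nat_add_iff 1).2 h

open Classical in
theorem summable_digits (A : Set ℕ) :
    Summable (fun i : ℕ => if i ∈ A then (1 / 2 : ℝ) ^ (i + 1) else 0) := by
  refine Summable.of_nonneg_of_le (fun i => ?_) (fun i => ?_) summable_half
  · split_ifs <;> positivity
  · split_ifs
    · exact le_rfl
    · positivity

theorem tsum_half : ∑' i : ℕ, (1 / 2 : ℝ) ^ (i + 1) = 1 := by
  have h : ∀ i : ℕ, (1 / 2 : ℝ) ^ (i + 1) = 1 / 2 * (1 / 2) ^ i := fun i => by
    rw [pow_succ]; ring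
  simp only [h]
  rw [tsum_mul_left, tsum_geometric_two]
  norm_num

theorem dreal_compl (A : Set ℕ) : dreal A + dreal Aᶜ = 1 := by
  classical
  unfold dreal
  rw [← (summable_digits A).tsum_add (summable_digits Aᶜ)]
  refine Eq.trans ?_ tsum_half
  apply tsum_congr
  intro i
  by_cases h : i ∈ A
  · have h2 : i ∉ Aᶜ := fun h' => h' h
    rw [if_pos h, if_neg h2, add_zero]
  · have h2 : i ∈ Aᶜ := h
    rw [if_neg h, if_pos h2, zero_add]

theorem dreal_nonneg (A : Set ℕ) : 0 ≤ dreal A := by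
  classical
  unfold dreal
  exact tsum_nonneg fun i => by split_ifs <;> positivity

theorem dreal_pos {A : Set ℕ} (h : A.Nonempty) : 0 < dreal A := by
  classical
  obtain ⟨i, hi⟩ := h
  unfold dreal
  have h1 := (summable_digits A).le_tsum i (fun j _ => by split_ifs <;> positivity)
  rw [if_pos hi] at h1
  exact lt_of_lt_of_le (by positivity) h1

theorem dreal_le_one (A : Set ℕ) : dreal A ≤ 1 := by
  have h1 := dreal_compl A
  have h2 := dreal_nonneg Aᶜ
  linarith

theorem dreal_empty : dreal ∅ = 0 := by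
  unfold dreal
  simp

/-- one Horner step -/
def hor (e : ℕ → Bool) (j : ℕ) : ℕ :=
  Nat.rec (motive := fun _ => ℕ) 0 (fun i r => 2 * r + (e i).toNat) j

theorem hor_succ (e : ℕ → Bool) (j : ℕ) : hor e (j + 1) = 2 * hor e j + (e j).toNat := rfl

theorem hor_mono {e e' : ℕ → Bool} (h : ∀ i, e i = true → e' i = true) (j : ℕ) :
    hor e j ≤ hor e' j := by
  induction j with
  | zero => exact le_rfl
  | succ j ih =>
    rw [hor_succ, hor_succ]
    have h1 : (e j).toNat ≤ (e' j).toNat := by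
      cases h2 : e j with
      | false => simp
      | true => rw [h j h2]
    omega

theorem hor_real (e : ℕ → Bool) (j : ℕ) : (hor e j : ℝ) / 2 ^ j =
    ∑ i ∈ Finset.range j, if e i = true then (1 / 2 : ℝ) ^ (i + 1) else 0 := by
  induction j with
  | zero => simp [hor]
  | succ j ih =>
    rw [Finset.sum_range_succ, ← ih, hor_succ]
    cases h : e j with
    | false =>
      simp only [Bool.toNat_false, add_zero, Bool.false_eq_true, if_false]
      push_cast
      rw [pow_succ]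
      field_simp
    | true =>
      simp only [Bool.toNat_true, if_true]
      push_cast
      rw [pow_succ, pow_succ]
      have : ((1 / 2 : ℝ)) ^ j = 1 / 2 ^ j := by
        rw [div_pow, one_pow]
      rw [this]
      field_simp

/-- reals with uniformly c.e. digit sets are uniformly left-c.e. -/
theorem ulce_dreal {R : (ℕ × ℕ) × ℕ → Bool} (hR : Computable R) {A : ℕ → Set ℕ}
    (hA : ∀ x i, i ∈ A x ↔ ∃ m, R ((x, i), m) = true) : ULCE (fun x => dreal (A x)) := by
  classical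
  let e : ℕ → ℕ → ℕ → Bool := fun x n i => decide (∃ m, m < n ∧ R ((x, i), m) = true)
  have hemono : ∀ x n n' i, n ≤ n' → e x n i = true → e x n' i = true := by
    intro x n n' i hn h
    simp only [e, decide_eq_true_eq] at h ⊢
    obtain ⟨m, hm, h1⟩ := h
    exact ⟨m, by omega, h1⟩
  have he : Computable (fun q : (ℕ × ℕ) × ℕ => e q.1.1 q.1.2 q.2) := by
    refine comp_bex (f := fun (q : (ℕ × ℕ) × ℕ) m => R ((q.1.1, q.2), m)) ?_
      (Computable.snd.comp Computable.fst)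
    have h1 : Computable (fun r : ((ℕ × ℕ) × ℕ) × ℕ => ((r.1.1.1, r.1.2), r.2)) :=
      ((Computable.fst.comp (Computable.fst.comp Computable.fst)).pair
        (Computable.snd.comp Computable.fst)).pair Computable.snd
    have h2 := hR.comp h1
    exact h2.to₂
  refine ⟨fun x n => hor (e x n) n, ?_, fun x n => ?_, fun x => ?_⟩
  · have h1 : Computable (fun q : ℕ × ℕ => Nat.rec (motive := fun _ => ℕ) 0
        (fun i r => 2 * r + (e q.1 q.2 i).toNat) q.2) := by
      refine Computable.nat_rec (h := fun (q : ℕ × ℕ) (p : ℕ × ℕ) =>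
        2 * p.2 + (e q.1 q.2 p.1).toNat) Computable.snd (Computable.const 0) ?_
      have h2 : Computable (fun r : (ℕ × ℕ) × (ℕ × ℕ) => e r.1.1 r.1.2 r.2.1) := by
        have h3 : Computable (fun r : (ℕ × ℕ) × (ℕ × ℕ) => ((r.1.1, r.1.2), r.2.1)) :=
          Computable.fst.pair (Computable.fst.comp Computable.snd)
        have h4 := he.comp h3
        exact h4
      have h5 : Computable (fun r : (ℕ × ℕ) × (ℕ × ℕ) => (e r.1.1 r.1.2 r.2.1).toNat) := by
        refine (Computable.cond h2 (Computable.const 1) (Computable.const 0)).of_eq fun r => ?_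
        cases e r.1.1 r.1.2 r.2.1 <;> rfl
      have h6 : Computable (fun r : (ℕ × ℕ) × (ℕ × ℕ) => 2 * r.2.2) :=
        (Primrec.nat_mul.comp (Primrec.const 2) (Primrec.snd.comp Primrec.snd)).to_comp
      exact (Primrec.nat_add.to_comp.comp h6 h5).to₂
    exact h1.to₂
  · show 2 * hor (e x n) n ≤ hor (e x (n + 1)) (n + 1)
    rw [hor_succ]
    have := hor_mono (e := e x n) (e' := e x (n + 1))
      (fun i => hemono x n (n + 1) i (Nat.le_succ n)) n
    omega
  · have h1 : Tendsto (fun n => ∑' i, if i < n ∧ e x n i = true then (1 / 2 : ℝ) ^ (i + 1) else 0)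
        atTop (𝓝 (∑' i, if i ∈ A x then (1 / 2 : ℝ) ^ (i + 1) else 0)) := by
      refine tendsto_tsum_of_dominated_convergence (bound := fun i => (1 / 2 : ℝ) ^ (i + 1))
        summable_half ?_ ?_
      · intro i
        refine tendsto_const_nhds.congr' ?_
        by_cases hi : i ∈ A x
        · obtain ⟨m, hm⟩ := (hA x i).1 hi
          filter_upwards [eventually_ge_atTop (max (i + 1) (m + 1))] with n hn
          have h2 : i < n := by
            have := le_max_left (i + 1) (m + 1)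
            omega
          have h3 : m < n := by
            have := le_max_right (i + 1) (m + 1)
            omega
          have h4 : i < n ∧ e x n i = true := ⟨h2, by
            simp only [e, decide_eq_true_eq]
            exact ⟨m, h3, hm⟩⟩
          rw [if_pos hi, if_pos h4]
        · filter_upwards with n
          have h4 : ¬ (i < n ∧ e x n i = true) := by
            rintro ⟨-, h5⟩
            simp only [e, decide_eq_true_eq] at h5
            obtain ⟨m, -, h6⟩ := h5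
            exact hi ((hA x i).2 ⟨m, h6⟩)
          rw [if_neg hi, if_neg h4]
      · filter_upwards with n i
        split_ifs
        · rw [Real.norm_of_nonneg (by positivity)]
        · rw [norm_zero]
          positivity
    refine h1.congr fun n => ?_
    show _ = (hor (e x n) n : ℝ) / 2 ^ n
    rw [hor_real]
    rw [tsum_eq_sum (s := Finset.range n)]
    · apply Finset.sum_congr rfl
      intro i hi
      rw [Finset.mem_range] at hi
      simp [hi]
    · intro i hi
      rw [Finset.mem_range] at hi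
      simp [hi]

/-! ## d.c.e. reals -/

/-- left-c.e. nonnegative reals: limits of computable nondecreasing sequences `a n / 2 ^ n` -/
def LeftCE (α : ℝ) : Prop :=
  ∃ a : ℕ → ℕ, Computable a ∧ (∀ n, 2 * a n ≤ a (n + 1)) ∧
    Tendsto (fun n => (a n : ℝ) / 2 ^ n) atTop (𝓝 α)

/-- differences of left-c.e. reals -/
def DCE (r : ℝ) : Prop := ∃ α β : ℝ, LeftCE α ∧ LeftCE β ∧ r = α - β

theorem LeftCE.ulce {α : ℝ} (h : LeftCE α) : ULCE (fun _ => α) := by
  obtain ⟨a, ha, ha2, haα⟩ := h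
  exact ⟨fun _ n => a n, (ha.comp Computable.snd).to₂, fun _ n => ha2 n, fun _ => haα⟩

theorem ULCE.leftCE {α : ℕ → ℝ} (h : ULCE α) (x : ℕ) : LeftCE (α x) := by
  obtain ⟨a, ha, ha2, haα⟩ := h
  exact ⟨fun n => a x n, ha.comp (Computable.const x) Computable.id, ha2 x, haα x⟩

theorem leftCE_sigma1 {A : Set ℕ} (hA : Sigma1 A) : LeftCE (dreal A) := by
  obtain ⟨R, hR, h⟩ := hA
  have h1 : ULCE (fun _ : ℕ => dreal A) := by
    refine ulce_dreal (R := fun q => R (q.1.2, q.2)) (hR.comp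
      ((Computable.snd.comp Computable.fst).pair Computable.snd)) (A := fun _ => A) ?_
    intro x i
    exact h i
  exact h1.leftCE 0

theorem dce_sigma1 {A : Set ℕ} (hA : Sigma1 A) : DCE (dreal A) := by
  refine ⟨dreal A, 0, leftCE_sigma1 hA, ?_, by simp⟩
  have h := (ULCE.dyadic 0 0).leftCE 0
  simpa using h

theorem dce_pi1 {A : Set ℕ} (hA : Pi1 A) : DCE (dreal A) := by
  obtain ⟨R, hR, h⟩ := hA
  have h1 : Sigma1 Aᶜ := by
    refine ⟨fun q => !R q, comp_not hR, fun x => ?_⟩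
    show ¬ (x ∈ A) ↔ _
    rw [h x]
    push Not
    simp
  refine ⟨1, dreal Aᶜ, ?_, leftCE_sigma1 h1, ?_⟩
  · have h2 := (ULCE.dyadic 1 0).leftCE 0
    simpa using h2
  · have := dreal_compl A
    linarith

/-- normal form -/
theorem dce_norm {r : ℝ} (h : DCE r) (h0 : 0 ≤ r) (h1 : r < 1) :
    ∃ (k : ℕ) (α β : ℝ), LeftCE α ∧ LeftCE β ∧ r = α - β ∧ 0 ≤ β ∧ α + 1 / 2 ^ k ≤ 1 := by
  obtain ⟨α, β, hα, hβ, hr⟩ := h
  obtain ⟨b, hb, hb2, hbβ⟩ := id hβ
  obtain ⟨k, hk⟩ := exists_pow_lt_of_lt_one (show 0 < (1 - r) / 2 by linarith)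
    (show (1 / 2 : ℝ) < 1 by norm_num)
  obtain ⟨s, hs⟩ := (hbβ.eventually (eventually_gt_nhds (show β - (1 - r) / 2 < β by
    linarith))).exists
  have h2 := le_lim hb2 hbβ s
  have hαs : (b s : ℝ) / 2 ^ s ≤ α := by linarith
  have e1 := (hα.ulce.sub (b s) s (fun _ => hαs)).leftCE 0
  have e2 := (hβ.ulce.sub (b s) s (fun _ => h2)).leftCE 0
  refine ⟨k, α - (b s : ℝ) / 2 ^ s, β - (b s : ℝ) / 2 ^ s, e1, e2, by linarith, by linarith, ?_⟩
  have h3 : (1 / 2 : ℝ) ^ k = 1 / 2 ^ k := by rw [div_pow, one_pow]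
  rw [h3] at hk
  linarith

theorem dce_norm' {r : ℝ} (h : DCE r) (h0 : 0 ≤ r) (h1 : r ≤ 1) :
    ∃ α β : ℝ, LeftCE α ∧ LeftCE β ∧ r = α - β ∧ 0 ≤ β ∧ α ≤ 1 := by
  rcases lt_or_eq_of_le h1 with h2 | h2
  · obtain ⟨k, α, β, hα, hβ, hr, hβ0, hα1⟩ := dce_norm h h0 h2
    have : (0 : ℝ) < 1 / 2 ^ k := by positivity
    exact ⟨α, β, hα, hβ, hr, hβ0, by linarith⟩
  · refine ⟨1, 0, ?_, ?_, by rw [h2]; norm_num, le_rfl, le_rfl⟩
    · have h3 := (ULCE.dyadic 1 0).leftCE 0
      simpa using h3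
    · have h3 := (ULCE.dyadic 0 0).leftCE 0
      simpa using h3

/-! ## Hardness -/

theorem gt_hard (hπ : EffEnum π) {r : ℝ} (h : DCE r) (h0 : 0 ≤ r) (h1 : r < 1) {X : Set ℕ}
    (hX : Sigma2 X) : ∃ f : ℕ → ℕ, Computable f ∧
      ∀ x, (x ∈ X → r < mu.real (DD π (f x))) ∧ (x ∉ X → mu.real (DD π (f x)) = r) := by
  obtain ⟨R, hR, hXR⟩ := hX
  obtain ⟨k, α, β, hα, hβ, hr, hβ0, hα1⟩ := dce_norm h h0 h1
  let A : ℕ → Set ℕ := fun x => {a | ∃ b, (!R (x, a, b)) = true}
  have hω : ULCE (fun x => dreal (A x)) := by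
    refine ulce_dreal (R := fun q => !R (q.1.1, q.1.2, q.2)) (comp_not (hR.comp
      ((Computable.fst.comp Computable.fst).pair ((Computable.snd.comp Computable.fst).pair
        Computable.snd)))) ?_
    intro x i
    rfl
  have e1 : ULCE (fun _ => α + ((1 : ℕ) : ℝ) / 2 ^ k) := hα.ulce.add (ULCE.dyadic 1 k)
  have e2 : ULCE (fun x => β + dreal (A x) / 2 ^ k) := hβ.ulce.add (hω.scale k)
  have hk : (0 : ℝ) < 2 ^ k := by positivity
  obtain ⟨f, hf, hfm⟩ := measure_realize hπ e1 e2 (by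
    intro x
    refine ⟨?_, by rw [Nat.cast_one]; exact hα1⟩
    have h2 : dreal (A x) / 2 ^ k ≤ 1 / 2 ^ k :=
      div_le_div_of_nonneg_right (dreal_le_one _) hk.le
    rw [Nat.cast_one]
    linarith)
  refine ⟨f, hf, fun x => ?_⟩
  have h3 : mu.real (DD π (f x)) = r + dreal (A x)ᶜ / 2 ^ k := by
    have h4 := dreal_compl (A x)
    have h5 : dreal (A x)ᶜ = 1 - dreal (A x) := by linarith
    rw [hfm x, h5, hr, sub_div, Nat.cast_one]
    ring
  constructor
  · intro hx
    obtain ⟨a, ha⟩ := (hXR x).1 hx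
    have h4 : (A x)ᶜ.Nonempty := by
      refine ⟨a, ?_⟩
      rintro ⟨b, hb⟩
      rw [ha b] at hb
      exact absurd hb (by simp)
    rw [h3]
    have := div_pos (dreal_pos h4) hk
    linarith
  · intro hx
    have h4 : (A x)ᶜ = ∅ := by
      rw [Set.eq_empty_iff_forall_notMem]
      intro a ha
      apply hx
      rw [hXR x]
      refine ⟨a, fun b => ?_⟩
      by_contra hcon
      exact ha ⟨b, by simpa using hcon⟩
    rw [h3, h4, dreal_empty]
    simp

theorem lt_hard (hπ : EffEnum π) {r : ℝ} (h : DCE r) (h0 : 0 < r) (h1 : r ≤ 1) {X : Set ℕ}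
    (hX : Sigma2 X) : ∃ f : ℕ → ℕ, Computable f ∧
      ∀ x, (x ∈ X → mu.real (DD π (f x)) < r) ∧ (x ∉ X → mu.real (DD π (f x)) = r) := by
  obtain ⟨R, hR, hXR⟩ := hX
  obtain ⟨α, β, hα, hβ, hr, hβ0, hα1⟩ := dce_norm' h h0.le h1
  obtain ⟨k, hk0⟩ := exists_pow_lt_of_lt_one h0 (show (1 / 2 : ℝ) < 1 by norm_num)
  rw [div_pow, one_pow] at hk0
  let A : ℕ → Set ℕ := fun x => {a | ∃ b, (!R (x, a, b)) = true}
  have hω : ULCE (fun x => dreal (A x)) := by
    refine ulce_dreal (R := fun q => !R (q.1.1, q.1.2, q.2)) (comp_not (hR.comp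
      ((Computable.fst.comp Computable.fst).pair ((Computable.snd.comp Computable.fst).pair
        Computable.snd)))) ?_
    intro x i
    rfl
  have hk : (0 : ℝ) < 2 ^ k := by positivity
  have e1 : ULCE (fun x => (α - ((1 : ℕ) : ℝ) / 2 ^ k) + dreal (A x) / 2 ^ k) :=
    (hα.ulce.sub 1 k (fun _ => by rw [Nat.cast_one]; linarith)).add (hω.scale k)
  obtain ⟨f, hf, hfm⟩ := measure_realize hπ e1 hβ.ulce (by
    intro x
    have h2 : dreal (A x) / 2 ^ k ≤ 1 / 2 ^ k :=
      div_le_div_of_nonneg_right (dreal_le_one _) hk.le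
    have h3 : 0 ≤ dreal (A x) / 2 ^ k := div_nonneg (dreal_nonneg _) hk.le
    rw [Nat.cast_one]
    constructor <;> linarith)
  refine ⟨f, hf, fun x => ?_⟩
  have h3 : mu.real (DD π (f x)) = r - dreal (A x)ᶜ / 2 ^ k := by
    have h4 := dreal_compl (A x)
    have h5 : dreal (A x)ᶜ = 1 - dreal (A x) := by linarith
    rw [hfm x, h5, hr, sub_div, Nat.cast_one]
    ring
  constructor
  · intro hx
    obtain ⟨a, ha⟩ := (hXR x).1 hx
    have h4 : (A x)ᶜ.Nonempty := by
      refine ⟨a, ?_⟩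
      rintro ⟨b, hb⟩
      rw [ha b] at hb
      exact absurd hb (by simp)
    rw [h3]
    have := div_pos (dreal_pos h4) hk
    linarith
  · intro hx
    have h4 : (A x)ᶜ = ∅ := by
      rw [Set.eq_empty_iff_forall_notMem]
      intro a ha
      apply hx
      rw [hXR x]
      refine ⟨a, fun b => ?_⟩
      by_contra hcon
      exact ha ⟨b, by simpa using hcon⟩
    rw [h3, h4, dreal_empty]
    simp

/-! ## Upper bounds and completeness -/

theorem gt_sigma2 (hπ : EffEnum π) {r : ℝ} (h : DCE r) :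
    Sigma2 {m | r < mu.real (DD π m)} := by
  obtain ⟨α, β, hα, hβ, hm⟩ := measure_upper hπ.computable
  obtain ⟨γ, δ, hγ, hδ, hr⟩ := h
  have h1 := sigma2_lt (hα.add hδ.ulce) (hβ.add hγ.ulce)
  have e : ({m | r < mu.real (DD π m)} : Set ℕ) = {x | β x + γ < α x + δ} := by
    ext m
    show r < mu.real (DD π m) ↔ β m + γ < α m + δ
    rw [(hm m).2.2.2, hr]
    constructor <;> intro h <;> linarith
  rw [e]
  exact h1

theorem lt_sigma2 (hπ : EffEnum π) {r : ℝ} (h : DCE r) :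
    Sigma2 {m | mu.real (DD π m) < r} := by
  obtain ⟨α, β, hα, hβ, hm⟩ := measure_upper hπ.computable
  obtain ⟨γ, δ, hγ, hδ, hr⟩ := h
  have h1 := sigma2_lt (hβ.add hγ.ulce) (hα.add hδ.ulce)
  have e : ({m | mu.real (DD π m) < r} : Set ℕ) = {x | α x + δ < β x + γ} := by
    ext m
    show mu.real (DD π m) < r ↔ α m + δ < β m + γ
    rw [(hm m).2.2.2, hr]
    constructor <;> intro h <;> linarith
  rw [e]
  exact h1

theorem gt_complete (hπ : EffEnum π) {r : ℝ} (h : DCE r) (h0 : 0 ≤ r) (h1 : r < 1) :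
    Complete Sigma2 {m | r < mu.real (DD π m)} := by
  refine ⟨gt_sigma2 hπ h, fun X hX => ?_⟩
  obtain ⟨f, hf, hfx⟩ := gt_hard hπ h h0 h1 hX
  refine ⟨f, hf, fun x => ⟨(hfx x).1, fun h2 => ?_⟩⟩
  by_contra hcon
  have h3 := (hfx x).2 hcon
  have h4 : r < mu.real (DD π (f x)) := h2
  rw [h3] at h4
  exact lt_irrefl _ h4

theorem le_complete (hπ : EffEnum π) {r : ℝ} (h : DCE r) (h0 : 0 ≤ r) (h1 : r < 1) :
    Complete Pi2 {m | mu.real (DD π m) ≤ r} := by
  have h2 := compl_complete pi2_iff' (gt_complete hπ h h0 h1)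
  have e : ({m | r < mu.real (DD π m)} : Set ℕ)ᶜ = {m | mu.real (DD π m) ≤ r} := by
    ext m
    simp
  rwa [e] at h2

theorem ltm_complete (hπ : EffEnum π) {r : ℝ} (h : DCE r) (h0 : 0 < r) (h1 : r ≤ 1) :
    Complete Sigma2 {m | mu.real (DD π m) < r} := by
  refine ⟨lt_sigma2 hπ h, fun X hX => ?_⟩
  obtain ⟨f, hf, hfx⟩ := lt_hard hπ h h0 h1 hX
  refine ⟨f, hf, fun x => ⟨(hfx x).1, fun h2 => ?_⟩⟩
  by_contra hcon
  have h3 := (hfx x).2 hcon
  have h4 : mu.real (DD π (f x)) < r := h2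
  rw [h3] at h4
  exact lt_irrefl _ h4

theorem gem_complete (hπ : EffEnum π) {r : ℝ} (h : DCE r) (h0 : 0 < r) (h1 : r ≤ 1) :
    Complete Pi2 {m | r ≤ mu.real (DD π m)} := by
  have h2 := compl_complete pi2_iff' (ltm_complete hπ h h0 h1)
  have e : ({m | mu.real (DD π m) < r} : Set ℕ)ᶜ = {m | r ≤ mu.real (DD π m)} := by
    ext m
    simp
  rwa [e] at h2

theorem eqm_complete (hπ : EffEnum π) {r : ℝ} (h : DCE r) (h0 : 0 ≤ r) (h1 : r ≤ 1) :
    Complete Pi2 {m | mu.real (DD π m) = r} := by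
  constructor
  · rw [pi2_iff]
    refine (S2.or (gt_sigma2 hπ h) (lt_sigma2 hπ h)).of_iff fun m => ?_
    show ¬ (mu.real (DD π m) = r) ↔ r < mu.real (DD π m) ∨ mu.real (DD π m) < r
    rw [← ne_eq, ne_iff_lt_or_gt, or_comm]
  · intro X hX
    have hX' := (pi2_iff' X).1 hX
    rcases lt_or_eq_of_le h1 with h2 | h2
    · obtain ⟨f, hf, hfx⟩ := gt_hard hπ h h0 h2 hX'
      refine ⟨f, hf, fun x => ⟨fun hx => (hfx x).2 (fun h => h hx), fun h3 => ?_⟩⟩
      by_contra hcon
      have h4 := (hfx x).1 hcon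
      have h5 : mu.real (DD π (f x)) = r := h3
      rw [h5] at h4
      exact lt_irrefl _ h4
    · obtain ⟨f, hf, hfx⟩ := lt_hard hπ h (by rw [h2]; norm_num) h1 hX'
      refine ⟨f, hf, fun x => ⟨fun hx => (hfx x).2 (fun h => h hx), fun h3 => ?_⟩⟩
      by_contra hcon
      have h4 := (hfx x).1 hcon
      have h5 : mu.real (DD π (f x)) = r := h3
      rw [h5] at h4
      exact lt_irrefl _ h4

/-! ## Arbitrary thresholds -/

/-- the class of sets given by comparing differences of uniformly left-c.e. reals with `R` -/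
def MM (R : Set ℝ) (X : Set ℕ) : Prop :=
  ∃ α β : ℕ → ℝ, ULCE α ∧ ULCE β ∧ (∀ x, β x ≤ α x ∧ α x ≤ 1) ∧ ∀ x, x ∈ X ↔ α x - β x ∈ R

theorem mm_complete (hπ : EffEnum π) (R : Set ℝ) :
    Complete (MM R) {m | mu.real (DD π m) ∈ R} := by
  constructor
  · obtain ⟨α, β, hα, hβ, hm⟩ := measure_upper hπ.computable
    refine ⟨α, β, hα, hβ, fun m => ⟨(hm m).2.1, (hm m).2.2.1⟩, fun m => ?_⟩
    show mu.real (DD π m) ∈ R ↔ _
    rw [(hm m).2.2.2]
  · rintro X ⟨α, β, hα, hβ, h1, h2⟩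
    obtain ⟨f, hf, hfx⟩ := measure_realize hπ hα hβ h1
    refine ⟨f, hf, fun x => (h2 x).trans ?_⟩
    show _ ↔ mu.real (DD π (f x)) ∈ R
    rw [hfx x]

theorem measure_dce (hπ : EffEnum π) (m : ℕ) : DCE (mu.real (DD π m)) := by
  obtain ⟨α, β, hα, hβ, hm⟩ := measure_upper hπ.computable
  exact ⟨α m, β m, hα.leftCE m, hβ.leftCE m, (hm m).2.2.2⟩

theorem dce_iff_measure (hπ : EffEnum π) {r : ℝ} (h0 : 0 ≤ r) (h1 : r ≤ 1) :
    DCE r ↔ ∃ m, mu.real (DD π m) = r := by
  constructor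
  · intro h
    obtain ⟨α, β, hα, hβ, hr, hβ0, hα1⟩ := dce_norm' h h0 h1
    obtain ⟨f, -, hf⟩ := measure_realize hπ hα.ulce hβ.ulce
      (fun _ => ⟨by linarith, hα1⟩)
    exact ⟨f 0, by rw [hf 0, hr]⟩
  · rintro ⟨m, rfl⟩
    exact measure_dce hπ m

end Pool.R534.ID
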