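import Pool.Agent.R534.ID.Card

/-!
# Realizing `Π⁰₁` classes; `Σ¹₁` sets
-/

namespace Pool.R534.ID

open Encodable Pool.R534.IC

/-- the initial segment of length `n` of a list, padded by `0` -/
def tk (τ : List ℕ) (n : ℕ) : List ℕ := (List.range n).map (fun i => τ.getD i 0)

theorem getD_res {y : ℕ → ℕ} {N i : ℕ} (h : i < N) : ((List.range N).map y).getD i 0 = y i := by
  simp [List.getD, h]

theorem tk_res {y : ℕ → ℕ} {N n : ℕ} (h : n ≤ N) :
    tk ((List.range N).map y) n = (List.range n).map y := by
  unfold tk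
  apply List.map_congr_left
  intro i hi
  rw [List.mem_range] at hi
  exact getD_res (by omega)

theorem prim_tk : Primrec₂ tk := by
  have h : Primrec₂ (fun (q : List ℕ × ℕ) (i : ℕ) => q.1.getD i 0) :=
    (Primrec.list_getD (0 : ℕ)).comp (Primrec.fst.comp Primrec.fst) Primrec.snd
  exact Primrec.list_map (Primrec.list_range.comp Primrec.snd) h

/-- Every uniformly computable sequence of trees in `2^{<ω}` defines classes with computable
indices. -/
theorem realize {π : ℕ → ℕ → Bool} (hπ : EffEnum π) {R : ℕ → List ℕ → Bool}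
    (hR : Computable₂ R) : ∃ f : ℕ → ℕ, Computable f ∧ ∀ x, Q π (f x) =
      {y | (∀ n, R x ((List.range n).map y) = true) ∧ ∀ n, y n < 2} := by
  have hg : Computable (fun n : ℕ => R (Nat.unpair (Nat.unpair n).1).1
      (Denumerable.ofNat (List ℕ) (Nat.unpair (Nat.unpair n).1).2)) := by
    have h1 : Computable (fun n : ℕ => Nat.unpair (Nat.unpair n).1) :=
      Computable.unpair.comp (Computable.fst.comp Computable.unpair)
    exact hR.comp (Computable.fst.comp h1)
      ((Computable.ofNat (List ℕ)).comp (Computable.snd.comp h1))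
  obtain ⟨S, hS, hmono, hs⟩ := exists_stage hg
  have hs' : ∀ x τ, (∀ s, S (Nat.pair x (encode τ)) s = true) ↔ R x τ = true := by
    intro x τ
    rw [hs]
    simp only [Nat.unpair_pair, Denumerable.ofNat_encode]
    exact ⟨fun h => h 0, fun h _ => h⟩
  have hF : Primrec₂ (fun (x m : ℕ) => decide (∀ i,
      i < (Denumerable.ofNat (List ℕ) m).length + 1 →
      S (Nat.pair x (encode (tk (Denumerable.ofNat (List ℕ) m) i)))
        (Denumerable.ofNat (List ℕ) m).length = true)) := by
    have h0 : Primrec (fun r : ℕ × ℕ => Denumerable.ofNat (List ℕ) r.2) :=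
      (Primrec.ofNat (List ℕ)).comp Primrec.snd
    refine prim_ball (α := ℕ × ℕ) (f := fun r i =>
      S (Nat.pair r.1 (encode (tk (Denumerable.ofNat (List ℕ) r.2) i)))
        (Denumerable.ofNat (List ℕ) r.2).length) ?_
      (Primrec.succ.comp (Primrec.list_length.comp h0))
    have h1 : Primrec (fun t : (ℕ × ℕ) × ℕ => tk (Denumerable.ofNat (List ℕ) t.1.2) t.2) :=
      prim_tk.comp (h0.comp Primrec.fst) Primrec.snd
    exact hS.comp (Primrec₂.natPair.comp (Primrec.fst.comp Primrec.fst)
      (Primrec.encode.comp h1)) (Primrec.list_length.comp (h0.comp Primrec.fst))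
  obtain ⟨f, hf, hfπ⟩ := hπ.smn _ hF
  refine ⟨f, hf, fun x => ?_⟩
  ext y
  show y ∈ Cls π (f x) ∧ (∀ n, y n < 2) ↔ _
  rw [cls_iff]
  simp only [hfπ, decide_eq_true_eq, Denumerable.ofNat_encode, List.length_map,
    List.length_range, Set.mem_ofPred_eq]
  refine and_congr_left fun _ => ?_
  constructor
  · intro h n
    rw [← hs']
    intro s
    have h1 := h (max n s) n (by omega)
    rw [tk_res (le_max_left _ _)] at h1
    exact hmono _ s (max n s) (le_max_right _ _) h1
  · intro h n i hi
    rw [tk_res (by omega)]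
    exact (hs' x _).2 (h i) n

/-! ## `Σ¹₁` sets -/

/-- `X` is `Σ¹₁`. -/
def Sigma11 (X : Set ℕ) : Prop :=
  ∃ R : ℕ × List ℕ → Bool, Computable R ∧
    ∀ x, x ∈ X ↔ ∃ f : ℕ → ℕ, ∀ n, R (x, (List.range n).map f) = true

/-- `X` is `Π¹₁`. -/
def Pi11 (X : Set ℕ) : Prop :=
  ∃ R : ℕ × List ℕ → Bool, Computable R ∧
    ∀ x, x ∈ X ↔ ∀ f : ℕ → ℕ, ∃ n, R (x, (List.range n).map f) = true

theorem pi11_iff (X : Set ℕ) : Pi11 X ↔ Sigma11 Xᶜ := by
  constructor
  · rintro ⟨R, hR, h⟩
    refine ⟨fun q => !R q, comp_not hR, fun x => ?_⟩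
    show ¬ (x ∈ X) ↔ _
    rw [h x]
    push Not
    simp
  · rintro ⟨R, hR, h⟩
    refine ⟨fun q => !R q, comp_not hR, fun x => ?_⟩
    have := h x
    rw [← not_iff_not] at this
    have h2 : x ∈ X ↔ ¬ (x ∈ Xᶜ) := by simp
    rw [h2, this]
    push Not
    simp

theorem sigma11_iff (X : Set ℕ) : Sigma11 X ↔ Pi11 Xᶜ := by
  rw [pi11_iff, compl_compl]

/-- a flexible criterion for being `Σ¹₁` -/
theorem sigma11_of {P : ℕ × List ℕ × ℕ → Bool} (hP : Computable P) {X : Set ℕ}
    (hX : ∀ m, m ∈ X ↔ ∃ h : ℕ → ℕ, ∀ p, ∃ N0, ∀ N, N0 ≤ N →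
      P (m, (List.range N).map h, p) = true) : Sigma11 X := by
  refine ⟨fun q => decide (∀ p, p < q.2.length / 2 →
    (decide (q.2.length / 2 < q.2.getD (2 * p + 1) 0) ||
      P (q.1, (List.range (q.2.length / 2)).map (fun i => q.2.getD (2 * i) 0), p)) = true),
    ?_, fun m => ?_⟩
  · have hl : Computable (fun q : ℕ × List ℕ => q.2.length / 2) :=
      (Primrec.nat_div.comp (Primrec.list_length.comp Primrec.snd) (Primrec.const 2)).to_comp
    refine comp_ball (f := fun (q : ℕ × List ℕ) p =>
      (decide (q.2.length / 2 < q.2.getD (2 * p + 1) 0) ||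
      P (q.1, (List.range (q.2.length / 2)).map (fun i => q.2.getD (2 * i) 0), p))) ?_ hl
    have h1 : Computable (fun r : (ℕ × List ℕ) × ℕ => r.1.2.getD (2 * r.2 + 1) 0) :=
      ((Primrec.list_getD (0 : ℕ)).comp (Primrec.snd.comp Primrec.fst)
        (Primrec.succ.comp (Primrec.nat_mul.comp (Primrec.const 2) Primrec.snd))).to_comp
    have h2 : Computable (fun r : (ℕ × List ℕ) × ℕ =>
        decide (r.1.2.length / 2 < r.1.2.getD (2 * r.2 + 1) 0)) := by
      have h3 := comp_dle (Computable.succ.comp (hl.comp (Computable.fst (β := ℕ)))) h1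
      exact h3
    have h4 : Primrec (fun r : (ℕ × List ℕ) × ℕ =>
        (List.range (r.1.2.length / 2)).map (fun i => r.1.2.getD (2 * i) 0)) := by
      have h5 : Primrec₂ (fun (r : (ℕ × List ℕ) × ℕ) (i : ℕ) => r.1.2.getD (2 * i) 0) :=
        (Primrec.list_getD (0 : ℕ)).comp (Primrec.snd.comp (Primrec.fst.comp Primrec.fst))
          (Primrec.nat_mul.comp (Primrec.const 2) Primrec.snd)
      exact Primrec.list_map (Primrec.list_range.comp (Primrec.nat_div.comp
        (Primrec.list_length.comp (Primrec.snd.comp Primrec.fst)) (Primrec.const 2))) h5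
    have h6 : Computable (fun r : (ℕ × List ℕ) × ℕ => (r.1.1,
        (List.range (r.1.2.length / 2)).map (fun i => r.1.2.getD (2 * i) 0), r.2)) :=
      (Computable.fst.comp Computable.fst).pair (h4.to_comp.pair Computable.snd)
    have h7 := comp_or h2 (hP.comp h6)
    exact h7.to₂
  · rw [hX m]
    simp only [decide_eq_true_eq, Bool.or_eq_true, List.length_map, List.length_range]
    constructor
    · rintro ⟨h, hh⟩
      choose g hg using hh
      let u : ℕ → ℕ := fun i => if i % 2 = 0 then h (i / 2) else g (i / 2)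
      have hu0 : ∀ i, u (2 * i) = h i := fun i => by
        have : 2 * i % 2 = 0 := by omega
        simp [u, this]
      have hu1 : ∀ i, u (2 * i + 1) = g i := fun i => by
        have h1 : (2 * i + 1) % 2 = 1 := by omega
        have h2 : (2 * i + 1) / 2 = i := by omega
        simp [u, h1, h2]
      refine ⟨u, fun n p hp => ?_⟩
      rw [getD_res (by omega), hu1]
      have h3 : (List.range (n / 2)).map (fun i => ((List.range n).map u).getD (2 * i) 0) =
          (List.range (n / 2)).map h := by
        apply List.map_congr_left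
        intro i hi
        rw [List.mem_range] at hi
        rw [getD_res (by omega), hu0]
      rw [h3]
      rcases Nat.lt_or_ge (n / 2) (g p) with h4 | h4
      · exact Or.inl h4
      · exact Or.inr (hg p _ h4)
    · rintro ⟨u, hu⟩
      refine ⟨fun i => u (2 * i), fun p => ⟨max (p + 1) (u (2 * p + 1)), fun N hN => ?_⟩⟩
      have h1 := hu (2 * N) p (by omega)
      have h2 : 2 * N / 2 = N := by omega
      rw [h2, getD_res (by omega)] at h1
      have h3 : (List.range N).map (fun i => ((List.range (2 * N)).map u).getD (2 * i) 0) =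
          (List.range N).map (fun i => u (2 * i)) := by
        apply List.map_congr_left
        intro i hi
        rw [List.mem_range] at hi
        rw [getD_res (by omega)]
      rw [h3] at h1
      rcases h1 with h1 | h1
      · omega
      · exact h1

end Pool.R534.ID
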