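import Pool.Agent.R534.ID.Meas4
import Mathlib.Computability.RecursiveIn

/-!
# Thresholds which are not d.c.e.: Turing degree
-/

namespace Pool.R534.ID

open Encodable Pool.R534.IC MeasureTheory Filter Topology
open Nat.Partrec (Code)

variable {π : ℕ → ℕ → Bool}

/-! ## Relative computability -/

open Classical in
/-- characteristic function -/
noncomputable def chi (A : Set ℕ) (n : ℕ) : ℕ := if n ∈ A then 1 else 0

/-- total function, as a partial one -/
def tot (u : ℕ → ℕ) : ℕ →. ℕ := fun n => Part.some (u n)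

theorem rel_comp {O : Set (ℕ →. ℕ)} {u v : ℕ → ℕ} (hu : Nat.RecursiveIn O (tot u))
    (hv : Nat.RecursiveIn O (tot v)) : Nat.RecursiveIn O (tot (fun n => u (v n))) := by
  refine (Nat.RecursiveIn.comp hu hv).of_eq fun n => ?_
  exact Part.bind_some _ _

theorem rel_pair {O : Set (ℕ →. ℕ)} {u v : ℕ → ℕ} (hu : Nat.RecursiveIn O (tot u))
    (hv : Nat.RecursiveIn O (tot v)) :
    Nat.RecursiveIn O (tot (fun n => Nat.pair (u n) (v n))) := by
  refine (Nat.RecursiveIn.pair hu hv).of_eq fun n => ?_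
  simp [tot, Seq.seq]

theorem rel_computable {O : Set (ℕ →. ℕ)} {u : ℕ → ℕ} (hu : Computable u) :
    Nat.RecursiveIn O (tot u) := by
  have h1 : Nat.Partrec (tot u) := Partrec.nat_iff.1 hu
  exact h1.recursiveIn

theorem rel_rfind {O : Set (ℕ →. ℕ)} {u : ℕ → ℕ} (hu : Nat.RecursiveIn O (tot u))
    (h : ∀ a, ∃ n, u (Nat.pair a n) = 0) :
    ∃ t : ℕ → ℕ, Nat.RecursiveIn O (tot t) ∧ ∀ a, u (Nat.pair a (t a)) = 0 := by
  classical
  refine ⟨fun a => Nat.find (h a), ?_, fun a => Nat.find_spec (h a)⟩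
  refine (Nat.RecursiveIn.rfind hu).of_eq fun a => ?_
  apply Part.eq_some_iff.2
  refine Nat.mem_rfind.2 ⟨?_, fun {m} hm => ?_⟩
  · have h1 : u (Nat.pair a (Nat.find (h a))) = 0 := Nat.find_spec (h a)
    simp [tot, h1]
  · have h1 : ¬ u (Nat.pair a m) = 0 := Nat.find_min (h a) hm
    simp [tot, h1]

/-- the halting set -/
def Halt : Set ℕ := {e | (Code.eval (Denumerable.ofNat Code e) 0).Dom}

theorem halt_hard {R : ℕ × ℕ → Bool} (hR : Computable R) :
    ∃ g : ℕ → ℕ, Computable g ∧ ∀ z, g z ∈ Halt ↔ ∃ s, R (z, s) = true := by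
  have hp : Computable₂ (fun (n b : ℕ) => R ((Nat.unpair n).1, b)) :=
    (hR.comp ((Computable.fst.comp (Computable.unpair.comp Computable.fst)).pair
      Computable.snd)).to₂
  have hf : Nat.Partrec (fun n => Nat.rfind (fun b =>
      (Part.some (R ((Nat.unpair n).1, b)) : Part Bool))) :=
    Partrec.nat_iff.1 (Partrec.rfind hp.partrec₂)
  obtain ⟨c0, hc0⟩ := Code.exists_code.1 hf
  refine ⟨fun z => encode (Code.curry c0 z), Computable.encode.comp
    (Code.primrec₂_curry.comp (Primrec.const c0) Primrec.id).to_comp, fun z => ?_⟩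
  show (Code.eval (Denumerable.ofNat Code (encode (Code.curry c0 z))) 0).Dom ↔ _
  rw [Denumerable.ofNat_encode, Code.eval_curry, hc0]
  constructor
  · intro h
    obtain ⟨v, hv⟩ := Part.dom_iff_mem.1 h
    have h6 := (Nat.mem_rfind.1 hv).1
    have h7 := Part.mem_some_iff.1 h6
    rw [Nat.unpair_pair] at h7
    exact ⟨v, h7.symm⟩
  · rintro ⟨s, hs⟩
    refine Nat.rfind_dom.2 ⟨s, ?_, fun _ => trivial⟩
    refine Part.mem_some_iff.2 ?_
    rw [Nat.unpair_pair]
    exact hs.symm

/-- the left cut of a real, in terms of dyadic rationals -/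
def cut (r : ℝ) : Set ℕ := {t | ((Nat.unpair t).1 : ℝ) / 2 ^ (Nat.unpair t).2 < r}

theorem dyadic_between {x y : ℝ} (hx : 0 ≤ x) (h : x < y) :
    ∃ p k : ℕ, x < (p : ℝ) / 2 ^ k ∧ (p : ℝ) / 2 ^ k < y := by
  obtain ⟨k, hk⟩ := exists_pow_lt_of_lt_one (sub_pos.2 h) (show (1 / 2 : ℝ) < 1 by norm_num)
  rw [div_pow, one_pow] at hk
  have h2 : (0 : ℝ) < 2 ^ k := by positivity
  refine ⟨⌊x * 2 ^ k⌋₊ + 1, k, ?_, ?_⟩
  · rw [lt_div_iff₀ h2]
    push_cast
    exact Nat.lt_floor_add_one _
  · have h3 : (⌊x * 2 ^ k⌋₊ : ℝ) ≤ x * 2 ^ k := Nat.floor_le (by positivity)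
    rw [div_lt_iff₀ h2]
    push_cast
    have h4 : 1 < (y - x) * 2 ^ k := by
      rw [div_lt_iff₀ h2] at hk
      exact hk
    nlinarith

theorem dce_dyadic (p k : ℕ) : DCE ((p : ℝ) / 2 ^ k) := by
  refine ⟨_, 0, (ULCE.dyadic p k).leftCE 0, ?_, by simp⟩
  have h := (ULCE.dyadic 0 0).leftCE 0
  simpa using h

theorem ne_of_not_dce (hπ : EffEnum π) {r : ℝ} (h : ¬ DCE r) (m : ℕ) :
    mu.real (DD π m) ≠ r := by
  intro h1
  exact h (h1 ▸ measure_dce hπ m)

/-- `r ≤_T` the index set -/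
theorem cut_reduces (hπ : EffEnum π) {r : ℝ} (h : ¬ DCE r) (h1 : r ≤ 1) :
    ∃ f : ℕ → ℕ, Computable f ∧ ∀ t, t ∈ cut r ↔ f t ∉ {m | r < mu.real (DD π m)} := by
  have e1 : ULCE (fun t => min (((Nat.unpair t).1 : ℝ) / 2 ^ (Nat.unpair t).2) 1) := by
    refine ⟨fun t n => cond (decide ((Nat.unpair t).2 ≤ n))
      (min ((Nat.unpair t).1 * 2 ^ (n - (Nat.unpair t).2)) (2 ^ n)) 0, ?_, fun t n => ?_,
      fun t => ?_⟩
    · have hp : Primrec (fun q : ℕ × ℕ => (Nat.unpair q.1).1) :=
        Primrec.fst.comp (Primrec.unpair.comp Primrec.fst)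
      have hk : Primrec (fun q : ℕ × ℕ => (Nat.unpair q.1).2) :=
        Primrec.snd.comp (Primrec.unpair.comp Primrec.fst)
      have h2 : Computable (fun q : ℕ × ℕ => decide ((Nat.unpair q.1).2 ≤ q.2)) :=
        comp_dle hk.to_comp Computable.snd
      have h3 : Computable (fun q : ℕ × ℕ =>
          min ((Nat.unpair q.1).1 * 2 ^ (q.2 - (Nat.unpair q.1).2)) (2 ^ q.2)) :=
        (Primrec.nat_min.comp (Primrec.nat_mul.comp hp (primrec_pow.comp (Primrec.const 2)
          (Primrec.nat_sub.comp Primrec.snd hk)))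
          (primrec_pow.comp (Primrec.const 2) Primrec.snd)).to_comp
      exact (Computable.cond h2 h3 (Computable.const 0)).to₂
    · beta_reduce
      generalize (Nat.unpair t).1 = p
      generalize (Nat.unpair t).2 = k
      rcases Nat.lt_or_ge n k with h | h
      · simp [not_le.2 h]
      · have h1 : k ≤ n + 1 := by omega
        simp only [h, h1, decide_true, cond_true]
        have h2 : n + 1 - k = (n - k) + 1 := by omega
        have h3 : p * 2 ^ ((n - k) + 1) = 2 * (p * 2 ^ (n - k)) := by rw [pow_succ]; ring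
        have h4 : 2 ^ (n + 1) = 2 * 2 ^ n := by rw [pow_succ]; ring
        rw [h2, h3, h4]
        omega
    · beta_reduce
      generalize (Nat.unpair t).1 = p
      generalize (Nat.unpair t).2 = k
      refine tendsto_const_nhds.congr' ?_
      filter_upwards [eventually_ge_atTop k] with n hn
      simp only [hn, decide_true, cond_true]
      have h3 : (2 : ℝ) ^ n = 2 ^ (n - k) * 2 ^ k := by
        rw [← pow_add]
        congr 1
        omega
      have h4 : (p : ℝ) / 2 ^ k = (p * 2 ^ (n - k)) / 2 ^ n := by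
        rw [h3]
        field_simp
      have h5 : (0 : ℝ) < 2 ^ n := by positivity
      rw [h4, Nat.cast_min, ← min_div_div_right h5.le]
      push_cast
      rw [div_self h5.ne']
  have e2 : ULCE (fun _ => (0 : ℝ)) := by
    have := ULCE.dyadic 0 0
    simpa using this
  obtain ⟨f, hf, hfm⟩ := measure_realize hπ e1 e2 (fun t =>
    ⟨le_min (by positivity) zero_le_one, min_le_right _ _⟩)
  refine ⟨f, hf, fun t => ?_⟩
  have h2 := ne_of_not_dce hπ h (f t)
  show ((Nat.unpair t).1 : ℝ) / 2 ^ (Nat.unpair t).2 < r ↔ ¬ r < mu.real (DD π (f t))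
  rw [hfm t, sub_zero] at h2 ⊢
  have hr1 : r ≠ 1 := fun h3 => h (by
    have := dce_dyadic 1 0
    simpa [h3] using this)
  have hr1' : r < 1 := lt_of_le_of_ne h1 hr1
  constructor
  · intro h3
    exact not_lt.2 ((min_le_left _ _).trans h3.le)
  · intro h3
    have h4 := lt_of_le_of_ne (not_lt.1 h3) h2
    rcases min_lt_iff.1 h4 with h5 | h5
    · exact h5
    · linarith

/-- `0' ≤_m` the index set -/
theorem halt_reduces (hπ : EffEnum π) {r : ℝ} (h0 : 0 ≤ r) (h1 : r < 1) :
    ∃ f : ℕ → ℕ, Computable f ∧ ∀ t, t ∈ Halt ↔ f t ∈ {m | r < mu.real (DD π m)} := by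
  have hR : Computable (fun q : (ℕ × ℕ) × ℕ =>
      (Code.evaln q.2 (Denumerable.ofNat Code q.1.1) 0).isSome) := by
    have h2 : Primrec (fun q : (ℕ × ℕ) × ℕ =>
        Code.evaln q.2 (Denumerable.ofNat Code q.1.1) 0) := by
      have h3 : Primrec (fun q : (ℕ × ℕ) × ℕ =>
          ((q.2, Denumerable.ofNat Code q.1.1), 0)) :=
        (Primrec.snd.pair ((Primrec.ofNat Code).comp (Primrec.fst.comp Primrec.fst))).pair
          (Primrec.const 0)
      have h4 := Code.primrec_evaln.comp h3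
      exact h4
    exact (Primrec.option_isSome.comp h2).to_comp
  let A : ℕ → Set ℕ := fun x => {_i | ∃ m, (Code.evaln m (Denumerable.ofNat Code x) 0).isSome}
  have e1 : ULCE (fun x => dreal (A x)) := ulce_dreal hR (fun x i => Iff.rfl)
  have e2 : ULCE (fun _ => (0 : ℝ)) := by
    have := ULCE.dyadic 0 0
    simpa using this
  obtain ⟨f, hf, hfm⟩ := measure_realize hπ e1 e2 (fun t =>
    ⟨dreal_nonneg _, dreal_le_one _⟩)
  refine ⟨f, hf, fun t => ?_⟩
  show (Code.eval (Denumerable.ofNat Code t) 0).Dom ↔ r < mu.real (DD π (f t))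
  rw [hfm t, sub_zero]
  have h5 : (Code.eval (Denumerable.ofNat Code t) 0).Dom ↔
      ∃ m, (Code.evaln m (Denumerable.ofNat Code t) 0).isSome := by
    rw [Part.dom_iff_mem]
    constructor
    · rintro ⟨v, hv⟩
      obtain ⟨m, hm⟩ := Code.evaln_complete.1 hv
      exact ⟨m, Option.isSome_iff_exists.2 ⟨v, hm⟩⟩
    · rintro ⟨m, hm⟩
      obtain ⟨v, hv⟩ := Option.isSome_iff_exists.1 hm
      exact ⟨v, Code.evaln_sound hv⟩
  rw [h5]
  constructor
  · intro h6
    have h7 : (A t)ᶜ = ∅ := by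
      rw [Set.eq_empty_iff_forall_notMem]
      intro i hi
      exact hi h6
    have h8 := dreal_compl (A t)
    rw [h7, dreal_empty] at h8
    linarith
  · intro h6
    by_contra hcon
    have h7 : A t = ∅ := by
      rw [Set.eq_empty_iff_forall_notMem]
      intro i hi
      exact hcon hi
    rw [h7, dreal_empty] at h6
    linarith

/-- the index set is computable in `r ⊕ 0'` -/
theorem index_turing (hπ : EffEnum π) {r : ℝ} (h : ¬ DCE r) (h0 : 0 ≤ r) :
    Nat.RecursiveIn {tot (chi (cut r)), tot (chi Halt)}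
      (tot (chi {m | r < mu.real (DD π m)})) := by
  classical
  obtain ⟨α, β, ⟨a, ha, ha2, haα⟩, ⟨b, hb, hb2, hbβ⟩, hm⟩ := measure_upper hπ.computable
  -- `t = ⟨⟨p, k⟩, n⟩`, `z = ⟨m, t⟩`
  let M : ℕ → ℕ := fun z => (Nat.unpair z).1
  let P : ℕ → ℕ := fun z => (Nat.unpair (Nat.unpair (Nat.unpair z).2).1).1
  let Kk : ℕ → ℕ := fun z => (Nat.unpair (Nat.unpair (Nat.unpair z).2).1).2
  let N : ℕ → ℕ := fun z => (Nat.unpair (Nat.unpair z).2).2
  have u1 : Primrec (fun z : ℕ => Nat.unpair (Nat.unpair z).2) :=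
    Primrec.unpair.comp (Primrec.snd.comp Primrec.unpair)
  have u2 : Primrec (fun z : ℕ => Nat.unpair (Nat.unpair (Nat.unpair z).2).1) :=
    Primrec.unpair.comp (Primrec.fst.comp u1)
  have hM : Primrec M := Primrec.fst.comp Primrec.unpair
  have hP : Primrec P := Primrec.fst.comp u2
  have hK : Primrec Kk := Primrec.snd.comp u2
  have hN : Primrec N := Primrec.snd.comp u1
  have pw : ∀ {α : Type} [Primcodable α] {f : α → ℕ}, Primrec f → Primrec (fun a => 2 ^ f a) :=
    fun hf => primrec_pow.comp (Primrec.const 2) hf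
  -- failure of `C1`, failure of `C2`
  let F1 : ℕ × ℕ → Bool := fun q => !decide (2 ^ N q.1 * 2 ^ Kk q.1 * b (M q.1) q.2 +
    P q.1 * 2 ^ N q.1 * 2 ^ q.2 ≤ 2 ^ q.2 * 2 ^ Kk q.1 * a (M q.1) (N q.1))
  let F2 : ℕ × ℕ → Bool := fun q => !decide (2 ^ N q.1 * 2 ^ Kk q.1 * a (M q.1) q.2 ≤
    2 ^ q.2 * 2 ^ Kk q.1 * b (M q.1) (N q.1) + P q.1 * 2 ^ N q.1 * 2 ^ q.2)
  have c1 : Primrec (fun q : ℕ × ℕ => 2 ^ N q.1 * 2 ^ Kk q.1) :=
    Primrec.nat_mul.comp (pw (hN.comp Primrec.fst)) (pw (hK.comp Primrec.fst))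
  have c2 : Primrec (fun q : ℕ × ℕ => P q.1 * 2 ^ N q.1 * 2 ^ q.2) :=
    Primrec.nat_mul.comp (Primrec.nat_mul.comp (hP.comp Primrec.fst)
      (pw (hN.comp Primrec.fst))) (pw Primrec.snd)
  have c3 : Primrec (fun q : ℕ × ℕ => 2 ^ q.2 * 2 ^ Kk q.1) :=
    Primrec.nat_mul.comp (pw Primrec.snd) (pw (hK.comp Primrec.fst))
  have ca : ∀ s : ℕ × ℕ → ℕ, Computable s → ∀ w : ℕ → ℕ → ℕ, Computable₂ w →
      Computable (fun q : ℕ × ℕ => w (M q.1) (s q)) := by
    intro s hs w hw
    exact hw.comp (hM.comp Primrec.fst).to_comp hs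
  have hNc : Computable (fun q : ℕ × ℕ => N q.1) := (hN.comp Primrec.fst).to_comp
  have hF1 : Computable F1 :=
    comp_not (comp_dle (Primrec.nat_add.to_comp.comp (Primrec.nat_mul.to_comp.comp c1.to_comp
      (ca _ Computable.snd b hb)) c2.to_comp)
      (Primrec.nat_mul.to_comp.comp c3.to_comp (ca _ hNc a ha)))
  have hF2 : Computable F2 :=
    comp_not (comp_dle (Primrec.nat_mul.to_comp.comp c1.to_comp (ca _ Computable.snd a ha))
      (Primrec.nat_add.to_comp.comp (Primrec.nat_mul.to_comp.comp c3.to_comp (ca _ hNc b hb))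
        c2.to_comp))
  obtain ⟨g1, hg1, hg1s⟩ := halt_hard hF1
  obtain ⟨g2, hg2, hg2s⟩ := halt_hard hF2
  have hs1 : ∀ z, g1 z ∉ Halt ↔ ∀ n', (b (M z) n' : ℝ) / 2 ^ n' + (P z : ℝ) / 2 ^ Kk z ≤
      (a (M z) (N z) : ℝ) / 2 ^ N z := by
    intro z
    rw [hg1s z, not_exists]
    refine forall_congr' fun n' => ?_
    simp only [F1, Bool.not_eq_true', decide_eq_false_iff_not, not_not]
    have p1 : (0 : ℝ) < 2 ^ n' := by positivity
    have p2 : (0 : ℝ) < 2 ^ Kk z := by positivity
    have p3 : (0 : ℝ) < 2 ^ N z := by positivity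
    rw [div_add_div _ _ p1.ne' p2.ne', div_le_div_iff₀ (by positivity) p3,
      ← Nat.cast_le (α := ℝ)]
    push_cast
    constructor <;> intro h5 <;> nlinarith
  have hs2 : ∀ z, g2 z ∉ Halt ↔ ∀ n', (a (M z) n' : ℝ) / 2 ^ n' ≤
      (b (M z) (N z) : ℝ) / 2 ^ N z + (P z : ℝ) / 2 ^ Kk z := by
    intro z
    rw [hg2s z, not_exists]
    refine forall_congr' fun n' => ?_
    simp only [F2, Bool.not_eq_true', decide_eq_false_iff_not, not_not]
    have p1 : (0 : ℝ) < 2 ^ n' := by positivity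
    have p2 : (0 : ℝ) < 2 ^ Kk z := by positivity
    have p3 : (0 : ℝ) < 2 ^ N z := by positivity
    rw [div_add_div _ _ p3.ne' p2.ne', div_le_div_iff₀ p1 (by positivity),
      ← Nat.cast_le (α := ℝ)]
    push_cast
    constructor <;> intro h5 <;> nlinarith
  -- the search
  let O : Set (ℕ →. ℕ) := {tot (chi (cut r)), tot (chi Halt)}
  have oL : Nat.RecursiveIn O (tot (chi (cut r))) := Nat.RecursiveIn.oracle _ (Or.inl rfl)
  have oK : Nat.RecursiveIn O (tot (chi Halt)) := Nat.RecursiveIn.oracle _ (Or.inr rfl)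
  have hq : Computable (fun z : ℕ => (Nat.unpair (Nat.unpair z).2).1) :=
    (Primrec.fst.comp u1).to_comp
  have r1 := rel_comp oL (rel_computable (O := O) hq)
  have r2 := rel_comp oK (rel_computable (O := O) hg1)
  have r3 := rel_comp oK (rel_computable (O := O) hg2)
  have r4 := rel_pair r1 (rel_pair r2 r3)
  -- value `0` iff success
  let ev : ℕ → ℕ := fun w => cond (decide ((Nat.unpair w).1 = 0))
    (Nat.unpair (Nat.unpair w).2).1 (Nat.unpair (Nat.unpair w).2).2
  have hev : Computable ev := by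
    have h2 : Computable (fun w : ℕ => decide ((Nat.unpair w).1 = 0)) :=
      comp_deq (Computable.fst.comp Computable.unpair) (Computable.const 0)
    exact Computable.cond h2
      (Computable.fst.comp (Computable.unpair.comp (Computable.snd.comp Computable.unpair)))
      (Computable.snd.comp (Computable.unpair.comp (Computable.snd.comp Computable.unpair)))
  have r5 := rel_comp (rel_computable (O := O) hev) r4
  have hevz : ∀ z, ev (Nat.pair (chi (cut r) (Nat.unpair (Nat.unpair z).2).1)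
      (Nat.pair (chi Halt (g1 z)) (chi Halt (g2 z)))) =
      if (Nat.unpair (Nat.unpair z).2).1 ∈ cut r then chi Halt (g2 z) else chi Halt (g1 z) := by
    intro z
    simp only [ev, Nat.unpair_pair]
    by_cases h5 : (Nat.unpair (Nat.unpair z).2).1 ∈ cut r
    · rw [if_pos h5]
      unfold chi
      simp [h5]
    · rw [if_neg h5]
      unfold chi
      simp [h5]
  have hcut : ∀ z, (Nat.unpair (Nat.unpair z).2).1 ∈ cut r ↔ (P z : ℝ) / 2 ^ Kk z < r :=
    fun z => Iff.rfl
  have hchi : ∀ (A : Set ℕ) (n : ℕ), chi A n = 0 ↔ n ∉ A := by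
    intro A n
    unfold chi
    split_ifs with h5 <;> simp [h5]
  have hα := fun m => le_lim (ha2 m) (haα m)
  have hβ := fun m => le_lim (hb2 m) (hbβ m)
  have htot : ∀ m, ∃ t, ev (Nat.pair (chi (cut r) (Nat.unpair (Nat.unpair (Nat.pair m t)).2).1)
      (Nat.pair (chi Halt (g1 (Nat.pair m t))) (chi Halt (g2 (Nat.pair m t))))) = 0 := by
    intro m
    have hMm := (hm m).2.2.2
    rcases lt_or_gt_of_ne (ne_of_not_dce hπ h m) with h5 | h5
    · obtain ⟨p, k, h6, h7⟩ := dyadic_between measureReal_nonneg h5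
      rw [hMm] at h6
      obtain ⟨n, hn⟩ := ((hbβ m).eventually (eventually_gt_nhds
        (show α m - (p : ℝ) / 2 ^ k < β m by linarith))).exists
      refine ⟨Nat.pair (Nat.pair p k) n, ?_⟩
      rw [hevz]
      have h8 : (Nat.unpair (Nat.unpair (Nat.pair m (Nat.pair (Nat.pair p k) n))).2).1 ∈ cut r := by
        rw [hcut]
        simp only [P, Kk, Nat.unpair_pair]
        exact h7
      rw [if_pos h8, hchi, hs2]
      simp only [M, P, Kk, N, Nat.unpair_pair]
      intro n'
      have := hα m n'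
      linarith
    · obtain ⟨p, k, h6, h7⟩ := dyadic_between h0 h5
      rw [hMm] at h7
      obtain ⟨n, hn⟩ := ((haα m).eventually (eventually_gt_nhds
        (show β m + (p : ℝ) / 2 ^ k < α m by linarith))).exists
      refine ⟨Nat.pair (Nat.pair p k) n, ?_⟩
      rw [hevz]
      have h8 : (Nat.unpair (Nat.unpair (Nat.pair m (Nat.pair (Nat.pair p k) n))).2).1 ∉
          cut r := by
        rw [hcut]
        simp only [P, Kk, Nat.unpair_pair]
        exact not_lt.2 h6.le
      rw [if_neg h8, hchi, hs1]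
      simp only [M, P, Kk, N, Nat.unpair_pair]
      intro n'
      have := hβ m n'
      linarith
  obtain ⟨t, ht, ht0⟩ := rel_rfind r5 htot
  -- output
  have r6 := rel_pair (rel_computable (O := O) Computable.id) ht
  have r7 := rel_comp r1 r6
  let fl : ℕ → ℕ := fun w => 1 - w
  have hfl : Computable fl := (Primrec.nat_sub.comp (Primrec.const 1) Primrec.id).to_comp
  have r8 := rel_comp (rel_computable (O := O) hfl) r7
  refine r8.of_eq fun m => ?_
  show Part.some _ = Part.some _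
  congr 1
  have h9 := ht0 m
  rw [hevz] at h9
  have hne : ∀ z, (P z : ℝ) / 2 ^ Kk z ≠ r := fun z h5 => h (h5 ▸ dce_dyadic _ _)
  have hMm := (hm m).2.2.2
  have hMz : M (Nat.pair m (t m)) = m := by simp only [M, Nat.unpair_pair]
  simp only [id_eq, fl]
  by_cases h10 : (Nat.unpair (Nat.unpair (Nat.pair m (t m))).2).1 ∈ cut r
  · rw [if_pos h10, hchi, hs2, hMz] at h9
    rw [hcut] at h10
    have h11 : ¬ r < mu.real (DD π m) := by
      rw [hMm]
      have h12 : α m ≤ (b m (N (Nat.pair m (t m))) : ℝ) / 2 ^ N (Nat.pair m (t m)) +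
          (P (Nat.pair m (t m)) : ℝ) / 2 ^ Kk (Nat.pair m (t m)) :=
        le_of_tendsto' (haα m) h9
      have h13 := hβ m (N (Nat.pair m (t m)))
      linarith
    have e1 : chi (cut r) (Nat.unpair (Nat.unpair (Nat.pair m (t m))).2).1 = 1 :=
      if_pos ((hcut _).2 h10)
    have e2 : chi {m | r < mu.real (DD π m)} m = 0 := if_neg h11
    rw [e1, e2]
  · rw [if_neg h10, hchi, hs1, hMz] at h9
    have h10' := h10
    rw [hcut, not_lt] at h10
    have h11 : r < mu.real (DD π m) := by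
      rw [hMm]
      have h12 : β m ≤ (a m (N (Nat.pair m (t m))) : ℝ) / 2 ^ N (Nat.pair m (t m)) -
          (P (Nat.pair m (t m)) : ℝ) / 2 ^ Kk (Nat.pair m (t m)) :=
        le_of_tendsto' (hbβ m) (fun n' => by have := h9 n'; linarith)
      have h13 := hα m (N (Nat.pair m (t m)))
      have h14 := lt_of_le_of_ne h10 (hne (Nat.pair m (t m))).symm
      linarith
    have e1 : chi (cut r) (Nat.unpair (Nat.unpair (Nat.pair m (t m))).2).1 = 0 :=
      if_neg h10'
    have e2 : chi {m | r < mu.real (DD π m)} m = 1 := if_pos h11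
    rw [e1, e2]

/-- Summary: for a threshold which is not d.c.e. the index set is Turing equivalent to
`r ⊕ 0'`. -/
theorem turing_equiv (hπ : EffEnum π) {r : ℝ} (h : ¬ DCE r) (h0 : 0 ≤ r) (h1 : r ≤ 1) :
    Nat.RecursiveIn {tot (chi (cut r)), tot (chi Halt)}
      (tot (chi {m | r < mu.real (DD π m)})) ∧
    Nat.RecursiveIn {tot (chi {m | r < mu.real (DD π m)})} (tot (chi (cut r))) ∧
    Nat.RecursiveIn {tot (chi {m | r < mu.real (DD π m)})} (tot (chi Halt)) := by
  classical
  refine ⟨index_turing hπ h h0, ?_, ?_⟩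
  · obtain ⟨f, hf, hft⟩ := cut_reduces hπ h h1
    have hfl : Computable (fun w : ℕ => 1 - w) :=
      (Primrec.nat_sub.comp (Primrec.const 1) Primrec.id).to_comp
    have r1 := rel_comp (Nat.RecursiveIn.oracle (O := {tot (chi {m | r < mu.real (DD π m)})}) _
      (Set.mem_singleton _)) (rel_computable hf)
    have r2 := rel_comp (rel_computable hfl) r1
    refine r2.of_eq fun t => ?_
    show Part.some _ = Part.some _
    congr 1
    have h2 := hft t
    by_cases h3 : t ∈ cut r
    · have e1 : chi (cut r) t = 1 := if_pos h3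
      have e2 : chi {m | r < mu.real (DD π m)} (f t) = 0 := if_neg (h2.1 h3)
      beta_reduce
      rw [e1, e2]
    · have h4 : f t ∈ {m | r < mu.real (DD π m)} := by
        by_contra h5
        exact h3 (h2.2 h5)
      have e1 : chi (cut r) t = 0 := if_neg h3
      have e2 : chi {m | r < mu.real (DD π m)} (f t) = 1 := if_pos h4
      beta_reduce
      rw [e1, e2]
  · have hr1 : r ≠ 1 := fun h3 => h (by
      have := dce_dyadic 1 0
      simpa [h3] using this)
    obtain ⟨f, hf, hft⟩ := halt_reduces hπ h0 (lt_of_le_of_ne h1 hr1)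
    have r1 := rel_comp (Nat.RecursiveIn.oracle (O := {tot (chi {m | r < mu.real (DD π m)})}) _
      (Set.mem_singleton _)) (rel_computable hf)
    refine r1.of_eq fun t => ?_
    show Part.some _ = Part.some _
    congr 1
    by_cases h3 : t ∈ Halt
    · have e1 : chi Halt t = 1 := if_pos h3
      have e2 : chi {m | r < mu.real (DD π m)} (f t) = 1 := if_pos ((hft t).1 h3)
      beta_reduce
      rw [e1, e2]
    · have h4 : f t ∉ {m | r < mu.real (DD π m)} := fun h5 => h3 ((hft t).2 h5)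
      have e1 : chi Halt t = 0 := if_neg h3
      have e2 : chi {m | r < mu.real (DD π m)} (f t) = 0 := if_neg h4
      beta_reduce
      rw [e1, e2]

end Pool.R534.ID
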