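import Pool.Agent.R534.ID.Real

/-!
# `{⟨a, b⟩ : Q_b \ Q_a is uncountable}` is `Σ¹₁`
-/

namespace Pool.R534.ID

open Encodable Pool.R534.IC Filter Topology

variable {π : ℕ → ℕ → Bool}

/-! ## Topology -/

theorem nhds_cyl {x : ℕ → ℕ} {U : Set (ℕ → ℕ)} (hU : U ∈ 𝓝 x) :
    ∃ n, ∀ g : ℕ → ℕ, (∀ i, i < n → g i = x i) → g ∈ U := by
  have hb := PiNat.isTopologicalBasis_cylinders (fun _ : ℕ => ℕ)
  obtain ⟨t, ⟨z, n, rfl⟩, hx, ht⟩ := hb.mem_nhds_iff.1 hU
  refine ⟨n, fun g hg => ht ?_⟩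
  rw [PiNat.mem_cylinder_iff_eq] at hx
  rw [← hx, PiNat.mem_cylinder_iff]
  exact hg

theorem closed_of_res {S : Set (ℕ → ℕ)} (h : ∀ f, f ∉ S → ∃ n, ∀ g : ℕ → ℕ,
    (∀ i, i < n → g i = f i) → g ∉ S) : IsClosed S := by
  rw [← isOpen_compl_iff, isOpen_iff_mem_nhds]
  intro f hf
  obtain ⟨n, hn⟩ := h f hf
  refine Filter.mem_of_superset
    ((PiNat.isOpen_cylinder (fun _ : ℕ => ℕ) f n).mem_nhds (PiNat.self_mem_cylinder f n)) ?_
  intro g hg
  rw [PiNat.mem_cylinder_iff] at hg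
  exact hn g hg

theorem res_congr {f g : ℕ → ℕ} {n : ℕ} (h : ∀ i, i < n → g i = f i) :
    (List.range n).map g = (List.range n).map f := by
  apply List.map_congr_left
  intro i hi
  exact h i (List.mem_range.1 hi)

theorem res_eq {f g : ℕ → ℕ} {n : ℕ} (h : (List.range n).map g = (List.range n).map f) :
    ∀ i, i < n → g i = f i := by
  intro i hi
  have := congrArg (fun l => l.getD i 0) h
  simp only [getD_res hi] at this
  exact this

/-- the part of `Q_b \ Q_a` whose members leave the tree of `a` before level `n0` -/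
def KN (π : ℕ → ℕ → Bool) (m n0 : ℕ) : Set (ℕ → ℕ) :=
  {f | f ∈ Q π (Nat.unpair m).2 ∧
    ∃ j, j < n0 + 1 ∧ π (Nat.unpair m).1 (encode ((List.range j).map f)) = false}

theorem closed_KN (m n0 : ℕ) : IsClosed (KN π m n0) := by
  apply closed_of_res
  intro f hf
  by_cases h1 : ∃ n, π (Nat.unpair m).2 (encode ((List.range n).map f)) = false
  · obtain ⟨n, hn⟩ := h1
    refine ⟨n, fun g hg hgK => ?_⟩
    have h2 := cls_iff.1 hgK.1.1 n
    rw [res_congr hg, hn] at h2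
    exact absurd h2 (by simp)
  · by_cases h3 : ∃ n, ¬ f n < 2
    · obtain ⟨n, hn⟩ := h3
      refine ⟨n + 1, fun g hg hgK => hn ?_⟩
      rw [← hg n (Nat.lt_succ_self n)]
      exact hgK.1.2 n
    · push Not at h1 h3
      refine ⟨n0 + 1, fun g hg hgK => ?_⟩
      obtain ⟨j, hj, h4⟩ := hgK.2
      apply hf
      refine ⟨⟨cls_iff.2 fun n => by simpa using h1 n, h3⟩, j, hj, ?_⟩
      rw [← res_congr (f := f) (g := g) (n := j) (fun i hi => hg i (by omega))]
      exact h4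

theorem DD_eq (m : ℕ) : DD π m = ⋃ n0, KN π m n0 := by
  ext f
  rw [Set.mem_iUnion]
  constructor
  · rintro ⟨h1, h2⟩
    by_contra hcon
    push Not at hcon
    apply h2
    refine ⟨cls_iff.2 fun n => ?_, h1.2⟩
    by_contra h3
    exact hcon n ⟨h1, n, Nat.lt_succ_self n, by simpa using h3⟩
  · rintro ⟨n0, h1, j, -, h2⟩
    refine ⟨h1, fun h3 => ?_⟩
    have := cls_iff.1 h3.1 j
    rw [h2] at this
    exact absurd this (by simp)

theorem not_countable_bool : ¬ Countable (ℕ → Bool) := by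
  classical
  intro h
  obtain ⟨ι, hι⟩ := h.exists_injective_nat
  refine Function.cantor_injective (fun S : Set ℕ => ι (fun n => decide (n ∈ S))) ?_
  intro S T hST
  have h1 := hι hST
  ext n
  have h2 := congrFun h1 n
  simpa using h2

/-- an uncountable difference contains a copy of the Cantor space -/
theorem inj_of_uncountable {m : ℕ} (h : ¬ (DD π m).Countable) :
    ∃ F : (ℕ → Bool) → (ℕ → ℕ), Set.range F ⊆ DD π m ∧ Function.Injective F := by
  have h1 : ∃ n0, ¬ (KN π m n0).Countable := by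
    by_contra hcon
    push Not at hcon
    exact h (by rw [DD_eq]; exact Set.countable_iUnion hcon)
  obtain ⟨n0, hn0⟩ := h1
  obtain ⟨F, hF, -, hinj⟩ := (closed_KN m n0).exists_nat_bool_injection_of_not_countable hn0
  exact ⟨F, hF.trans (by rw [DD_eq]; exact Set.subset_iUnion _ n0), hinj⟩

/-! ## The `Σ¹₁` definition -/

/-- the first `n` digits of the `i`-th member coded by `h` -/
def YH (h : ℕ → ℕ) (i n : ℕ) : List ℕ := (List.range n).map (fun k => h (4 * Nat.pair i k + 1))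

/-- the same for lists -/
def YL (l : List ℕ) (i n : ℕ) : List ℕ :=
  (List.range n).map (fun k => l.getD (4 * Nat.pair i k + 1) 0)

/-- the condition -/
def Phi (π : ℕ → ℕ → Bool) (m : ℕ) (h : ℕ → ℕ) (p : ℕ) : Prop :=
  π (Nat.unpair m).2 (encode (YH h (Nat.unpair p).1 (Nat.unpair p).2)) = true ∧
  h (4 * p + 1) < 2 ∧
  (∃ j, j < h 0 + 1 ∧ π (Nat.unpair m).1 (encode (YH h (Nat.unpair p).1 j)) = false) ∧
  YH h (h (4 * p + 2)) (Nat.unpair p).2 = YH h (Nat.unpair p).1 (Nat.unpair p).2 ∧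
  h (4 * Nat.pair (h (4 * p + 2)) (h (4 * p + 3)) + 1) ≠
    h (4 * Nat.pair (Nat.unpair p).1 (h (4 * p + 3)) + 1)

theorem uncountable_of_phi {m : ℕ} {h : ℕ → ℕ} (hh : ∀ p, Phi π m h p) :
    ¬ (DD π m).Countable := by
  let y : ℕ → ℕ → ℕ := fun i k => h (4 * Nat.pair i k + 1)
  have hyH : ∀ i n, YH h i n = (List.range n).map (y i) := fun i n => rfl
  have hyK : ∀ i, y i ∈ KN π m (h 0) := by
    intro i
    refine ⟨⟨cls_iff.2 fun n => ?_, fun n => ?_⟩, ?_⟩
    · have := (hh (Nat.pair i n)).1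
      simp only [Nat.unpair_pair] at this
      rwa [hyH] at this
    · have := (hh (Nat.pair i n)).2.1
      exact this
    · obtain ⟨j, hj, h1⟩ := (hh (Nat.pair i 0)).2.2.1
      simp only [Nat.unpair_pair] at h1
      rw [hyH] at h1
      exact ⟨j, hj, h1⟩
  have hpre : Preperfect (Set.range y) := by
    rintro _ ⟨i, rfl⟩
    rw [accPt_iff_nhds]
    intro U hU
    obtain ⟨n, hn⟩ := nhds_cyl hU
    obtain ⟨-, -, -, h4, h5⟩ := hh (Nat.pair i n)
    simp only [Nat.unpair_pair] at h4 h5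
    rw [hyH, hyH] at h4
    refine ⟨y (h (4 * Nat.pair i n + 2)), ⟨hn _ (res_eq h4), ⟨_, rfl⟩⟩, fun heq => h5 ?_⟩
    exact congrFun heq (h (4 * Nat.pair i n + 3))
  have hperf := hpre.perfect_closure
  have hsub : closure (Set.range y) ⊆ DD π m := by
    refine (closure_minimal ?_ (closed_KN (π := π) m (h 0))).trans ?_
    · rintro _ ⟨i, rfl⟩
      exact hyK i
    · rw [DD_eq]
      exact Set.subset_iUnion _ _
  let _ := TopologicalSpace.upgradeIsCompletelyMetrizable (ℕ → ℕ)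
  obtain ⟨F, hF, -, hinj⟩ := hperf.exists_nat_bool_injection
    (Set.Nonempty.closure ⟨y 0, 0, rfl⟩)
  intro hc
  have h1 : (Set.range F).Countable := hc.mono (hF.trans hsub)
  have h2 : Countable (ℕ → Bool) := by
    have := h1.to_subtype
    exact (Set.rangeFactorization_injective.2 hinj).countable
  exact not_countable_bool h2

theorem phi_of_uncountable {m : ℕ} (h : ¬ (DD π m).Countable) :
    ∃ h : ℕ → ℕ, ∀ p, Phi π m h p := by
  have h1 : ∃ n0, ¬ (KN π m n0).Countable := by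
    by_contra hcon
    push Not at hcon
    exact h (by rw [DD_eq]; exact Set.countable_iUnion hcon)
  obtain ⟨n0, hn0⟩ := h1
  obtain ⟨D, hD, hDne, hDK⟩ :=
    exists_perfect_nonempty_of_isClosed_of_not_countable (closed_KN m n0) hn0
  have : Nonempty D := hDne.to_subtype
  let y : ℕ → ℕ → ℕ := fun i => (TopologicalSpace.denseSeq D i : ℕ → ℕ)
  have hyD : ∀ i, y i ∈ D := fun i => (TopologicalSpace.denseSeq D i).2
  have hdense : ∀ z ∈ D, ∀ n, ∃ i, ∀ k, k < n → y i k = z k := by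
    intro z hz n
    have hopen : IsOpen ((fun d : D => (d : ℕ → ℕ)) ⁻¹' (PiNat.cylinder z n)) :=
      (PiNat.isOpen_cylinder (fun _ : ℕ => ℕ) z n).preimage continuous_subtype_val
    obtain ⟨i, hi⟩ := (TopologicalSpace.denseRange_denseSeq D).exists_mem_open hopen
      ⟨⟨z, hz⟩, PiNat.self_mem_cylinder z n⟩
    exact ⟨i, PiNat.mem_cylinder_iff.1 hi⟩
  have hJ : ∀ p : ℕ, ∃ J d, (∀ k, k < (Nat.unpair p).2 → y J k = y (Nat.unpair p).1 k) ∧
      y J d ≠ y (Nat.unpair p).1 d := by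
    intro p
    have hacc := accPt_iff_nhds.1 (hD.acc _ (hyD (Nat.unpair p).1))
    obtain ⟨z, ⟨hz1, hz2⟩, hz3⟩ := hacc _
      ((PiNat.isOpen_cylinder (fun _ : ℕ => ℕ) (y (Nat.unpair p).1)
        (Nat.unpair p).2).mem_nhds (PiNat.self_mem_cylinder _ _))
    rw [PiNat.mem_cylinder_iff] at hz1
    obtain ⟨d, hd⟩ := Function.ne_iff.1 hz3
    obtain ⟨J, hJ⟩ := hdense z hz2 (max (Nat.unpair p).2 (d + 1))
    refine ⟨J, d, fun k hk => ?_, ?_⟩
    · rw [hJ k (lt_of_lt_of_le hk (le_max_left _ _)), hz1 k hk]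
    · rw [hJ d (lt_of_lt_of_le (Nat.lt_succ_self d) (le_max_right _ _))]
      exact hd
  choose J d hJ1 hJ2 using hJ
  let g : ℕ → ℕ := fun q =>
    if q = 0 then n0 else
      if q % 4 = 1 then y (Nat.unpair (q / 4)).1 (Nat.unpair (q / 4)).2 else
        if q % 4 = 2 then J (q / 4) else d (q / 4)
  have g0 : g 0 = n0 := rfl
  have g1 : ∀ p, g (4 * p + 1) = y (Nat.unpair p).1 (Nat.unpair p).2 := by
    intro p
    have e1 : (4 * p + 1) % 4 = 1 := by omega
    have e2 : (4 * p + 1) / 4 = p := by omega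
    simp [g, e1, e2]
  have g2 : ∀ p, g (4 * p + 2) = J p := by
    intro p
    have e1 : (4 * p + 2) % 4 = 2 := by omega
    have e2 : (4 * p + 2) / 4 = p := by omega
    simp [g, e1, e2]
  have g3 : ∀ p, g (4 * p + 3) = d p := by
    intro p
    have e1 : (4 * p + 3) % 4 = 3 := by omega
    have e2 : (4 * p + 3) / 4 = p := by omega
    simp [g, e1, e2]
  have gY : ∀ i n, YH g i n = (List.range n).map (y i) := by
    intro i n
    unfold YH
    apply List.map_congr_left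
    intro k _
    rw [g1, Nat.unpair_pair]
  refine ⟨g, fun p => ?_⟩
  unfold Phi
  rw [g2, g3, g1, g1, g1, Nat.unpair_pair, Nat.unpair_pair, gY, gY, g0]
  have hK := hDK (hyD (Nat.unpair p).1)
  refine ⟨cls_iff.1 hK.1.1 _, hK.1.2 _, ?_, res_congr (hJ1 p), hJ2 p⟩
  obtain ⟨j, hj, h2⟩ := hK.2
  exact ⟨j, hj, by rw [gY]; exact h2⟩

/-- list version of the condition -/
def PP (π : ℕ → ℕ → Bool) (q : ℕ × List ℕ × ℕ) : Bool :=
  (((π (Nat.unpair q.1).2 (encode (YL q.2.1 (Nat.unpair q.2.2).1 (Nat.unpair q.2.2).2)) &&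
    decide (q.2.1.getD (4 * q.2.2 + 1) 0 + 1 ≤ 2)) &&
    decide (∃ j, j < q.2.1.getD 0 0 + 1 ∧
      (!π (Nat.unpair q.1).1 (encode (YL q.2.1 (Nat.unpair q.2.2).1 j))) = true)) &&
    decide (encode (YL q.2.1 (q.2.1.getD (4 * q.2.2 + 2) 0) (Nat.unpair q.2.2).2) =
      encode (YL q.2.1 (Nat.unpair q.2.2).1 (Nat.unpair q.2.2).2))) &&
    !decide (q.2.1.getD (4 * Nat.pair (q.2.1.getD (4 * q.2.2 + 2) 0)
      (q.2.1.getD (4 * q.2.2 + 3) 0) + 1) 0 =
      q.2.1.getD (4 * Nat.pair (Nat.unpair q.2.2).1 (q.2.1.getD (4 * q.2.2 + 3) 0) + 1) 0)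

theorem prim_YL {α : Type} [Primcodable α] {l : α → List ℕ} {i n : α → ℕ} (hl : Primrec l)
    (hi : Primrec i) (hn : Primrec n) : Primrec (fun a => YL (l a) (i a) (n a)) := by
  have h : Primrec₂ (fun (a : α) (k : ℕ) => (l a).getD (4 * Nat.pair (i a) k + 1) 0) :=
    (Primrec.list_getD (0 : ℕ)).comp (hl.comp Primrec.fst)
      (Primrec.succ.comp (Primrec.nat_mul.comp (Primrec.const 4)
        (Primrec₂.natPair.comp (hi.comp Primrec.fst) Primrec.snd)))
  exact Primrec.list_map (Primrec.list_range.comp hn) h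

theorem prim_getD {α : Type} [Primcodable α] {l : α → List ℕ} {i : α → ℕ} (hl : Primrec l)
    (hi : Primrec i) : Primrec (fun a => (l a).getD (i a) 0) :=
  (Primrec.list_getD (0 : ℕ)).comp hl hi

theorem comp_PP (hπ : Computable₂ π) : Computable (PP π) := by
  have hl : Primrec (fun q : ℕ × List ℕ × ℕ => q.2.1) := Primrec.fst.comp Primrec.snd
  have hp : Primrec (fun q : ℕ × List ℕ × ℕ => q.2.2) := Primrec.snd.comp Primrec.snd
  have hi : Primrec (fun q : ℕ × List ℕ × ℕ => (Nat.unpair q.2.2).1) :=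
    Primrec.fst.comp (Primrec.unpair.comp hp)
  have hn : Primrec (fun q : ℕ × List ℕ × ℕ => (Nat.unpair q.2.2).2) :=
    Primrec.snd.comp (Primrec.unpair.comp hp)
  have hb : Primrec (fun q : ℕ × List ℕ × ℕ => (Nat.unpair q.1).2) :=
    Primrec.snd.comp (Primrec.unpair.comp Primrec.fst)
  have ha : Primrec (fun q : ℕ × List ℕ × ℕ => (Nat.unpair q.1).1) :=
    Primrec.fst.comp (Primrec.unpair.comp Primrec.fst)
  have h4 : ∀ c, Primrec (fun q : ℕ × List ℕ × ℕ => 4 * q.2.2 + c) := fun c =>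
    Primrec.nat_add.comp (Primrec.nat_mul.comp (Primrec.const 4) hp) (Primrec.const c)
  have hg : ∀ c, Primrec (fun q : ℕ × List ℕ × ℕ => q.2.1.getD (4 * q.2.2 + c) 0) := fun c =>
    prim_getD hl (h4 c)
  have e1 := hπ.comp hb.to_comp (Primrec.encode.comp (prim_YL hl hi hn)).to_comp
  have e2 := comp_dle (Computable.succ.comp (hg 1).to_comp) (Computable.const 2)
  have e3 : Computable (fun q : ℕ × List ℕ × ℕ => decide (∃ j, j < q.2.1.getD 0 0 + 1 ∧
      (!π (Nat.unpair q.1).1 (encode (YL q.2.1 (Nat.unpair q.2.2).1 j))) = true)) := by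
    refine comp_bex (f := fun (q : ℕ × List ℕ × ℕ) j =>
      (!π (Nat.unpair q.1).1 (encode (YL q.2.1 (Nat.unpair q.2.2).1 j)))) ?_
      (Primrec.succ.comp (prim_getD hl (Primrec.const 0))).to_comp
    have h5 := hπ.comp (ha.comp (Primrec.fst (β := ℕ))).to_comp
      (Primrec.encode.comp (prim_YL (hl.comp (Primrec.fst (β := ℕ)))
        (hi.comp (Primrec.fst (β := ℕ))) Primrec.snd)).to_comp
    have h6 := comp_not h5
    exact h6.to₂
  have e4 := comp_deq (Primrec.encode.comp (prim_YL hl (hg 2) hn)).to_comp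
    (Primrec.encode.comp (prim_YL hl hi hn)).to_comp
  have e5 : Primrec (fun q : ℕ × List ℕ × ℕ => q.2.1.getD (4 * Nat.pair
      (q.2.1.getD (4 * q.2.2 + 2) 0) (q.2.1.getD (4 * q.2.2 + 3) 0) + 1) 0) :=
    prim_getD hl (Primrec.succ.comp (Primrec.nat_mul.comp (Primrec.const 4)
      (Primrec₂.natPair.comp (hg 2) (hg 3))))
  have e6 : Primrec (fun q : ℕ × List ℕ × ℕ => q.2.1.getD (4 * Nat.pair
      (Nat.unpair q.2.2).1 (q.2.1.getD (4 * q.2.2 + 3) 0) + 1) 0) :=
    prim_getD hl (Primrec.succ.comp (Primrec.nat_mul.comp (Primrec.const 4)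
      (Primrec₂.natPair.comp hi (hg 3))))
  have e7 := comp_not (comp_deq e5.to_comp e6.to_comp)
  have e8 := comp_and (comp_and (comp_and (comp_and e1 e2) e3) e4) e7
  exact e8

theorem ev_getD (h : ℕ → ℕ) (i : ℕ) :
    ∀ᶠ N in atTop, ((List.range N).map h).getD i 0 = h i :=
  eventually_atTop.2 ⟨i + 1, fun _ hN => getD_res hN⟩

theorem ev_YL (h : ℕ → ℕ) (i n : ℕ) :
    ∀ᶠ N in atTop, YL ((List.range N).map h) i n = YH h i n := by
  have h1 : ∀ᶠ N in atTop, ∀ k ∈ Set.Iio n,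
      ((List.range N).map h).getD (4 * Nat.pair i k + 1) 0 = h (4 * Nat.pair i k + 1) :=
    (eventually_all_finite (Set.finite_Iio n)).2 fun k _ => ev_getD h _
  refine h1.mono fun N hN => ?_
  unfold YL YH
  apply List.map_congr_left
  intro k hk
  exact hN k (List.mem_range.1 hk)

theorem ev_PP (m : ℕ) (h : ℕ → ℕ) (p : ℕ) :
    ∀ᶠ N in atTop, (PP π (m, (List.range N).map h, p) = true ↔ Phi π m h p) := by
  have h1 := ev_YL h (Nat.unpair p).1 (Nat.unpair p).2
  have h2 := ev_getD h (4 * p + 1)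
  have h3 := ev_getD h 0
  have h4 : ∀ᶠ N in atTop, ∀ j ∈ Set.Iio (h 0 + 1),
      YL ((List.range N).map h) (Nat.unpair p).1 j = YH h (Nat.unpair p).1 j :=
    (eventually_all_finite (Set.finite_Iio _)).2 fun j _ => ev_YL h _ _
  have h5 := ev_getD h (4 * p + 2)
  have h6 := ev_getD h (4 * p + 3)
  have h7 := ev_YL h (h (4 * p + 2)) (Nat.unpair p).2
  have h8 := ev_getD h (4 * Nat.pair (h (4 * p + 2)) (h (4 * p + 3)) + 1)
  have h9 := ev_getD h (4 * Nat.pair (Nat.unpair p).1 (h (4 * p + 3)) + 1)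
  filter_upwards [h1, h2, h3, h4, h5, h6, h7, h8, h9] with N g1 g2 g3 g4 g5 g6 g7 g8 g9
  unfold PP Phi
  simp only [Bool.and_eq_true, decide_eq_true_eq, Bool.not_eq_true', decide_eq_false_iff_not]
  rw [g1, g2, g3, g5, g6, g7, g8, g9]
  have e3 : (∃ j, j < h 0 + 1 ∧ π (Nat.unpair m).1
      (encode (YL ((List.range N).map h) (Nat.unpair p).1 j)) = false) ↔
      ∃ j, j < h 0 + 1 ∧ π (Nat.unpair m).1 (encode (YH h (Nat.unpair p).1 j)) = false :=
    exists_congr fun j => and_congr_right fun hj => by rw [g4 j hj]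
  rw [e3, encode_inj]
  constructor
  · rintro ⟨⟨⟨⟨a1, a2⟩, a3⟩, a4⟩, a5⟩
    exact ⟨a1, by omega, a3, a4, a5⟩
  · rintro ⟨a1, a2, a3, a4, a5⟩
    exact ⟨⟨⟨⟨a1, by omega⟩, a3⟩, a4⟩, a5⟩

theorem sigma11_uncountable (hπ : Computable₂ π) : Sigma11 {m | ¬ (DD π m).Countable} := by
  refine sigma11_of (comp_PP hπ) fun m => ?_
  show ¬ (DD π m).Countable ↔ _
  constructor
  · intro h
    obtain ⟨h, hh⟩ := phi_of_uncountable h
    refine ⟨h, fun p => ?_⟩
    obtain ⟨N0, hN0⟩ := eventually_atTop.1 (ev_PP (π := π) m h p)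
    exact ⟨N0, fun N hN => (hN0 N hN).2 (hh p)⟩
  · rintro ⟨h, hh⟩
    refine uncountable_of_phi (h := h) fun p => ?_
    obtain ⟨N0, hN0⟩ := eventually_atTop.1 (ev_PP (π := π) m h p)
    obtain ⟨N1, hN1⟩ := hh p
    exact (hN0 (max N0 N1) (le_max_left _ _)).1 (hN1 _ (le_max_right _ _))

end Pool.R534.ID
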