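import Pool.Agent.R534.ID.Unc

/-!
# `{⟨a, b⟩ : Q_b \ Q_a is uncountable}` is `Σ¹₁`-hard
-/

namespace Pool.R534.ID

open Encodable Pool.R534.IC

variable {π : ℕ → ℕ → Bool}

/-! ## Block coding -/

/-- one step of decoding -/
def stp (s : ℕ × List ℕ) (b : ℕ) : ℕ × List ℕ := if b = 0 then (s.1 + 1, s.2) else (0, s.2 ++ [s.1])

/-- decoding -/
def dcd (σ : List ℕ) : ℕ × List ℕ := σ.foldl stp (0, [])

/-- coding -/
def blk (L : List ℕ) : List ℕ := L.flatMap (fun k => List.replicate k 0 ++ [1])

theorem foldl_zero (k : ℕ) (s : ℕ × List ℕ) :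
    (List.replicate k 0).foldl stp s = (s.1 + k, s.2) := by
  induction k generalizing s with
  | zero => rfl
  | succ k ih =>
    rw [List.replicate_succ, List.foldl_cons, ih]
    simp only [stp, if_true]
    ext
    · simp only; omega
    · rfl

theorem foldl_block (k : ℕ) (l : List ℕ) :
    (List.replicate k 0 ++ [1]).foldl stp (0, l) = (0, l ++ [k]) := by
  rw [List.foldl_append, foldl_zero]
  simp [stp]

theorem dcd_blk_aux (L l : List ℕ) : (blk L).foldl stp (0, l) = (0, l ++ L) := by
  induction L generalizing l with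
  | nil => simp [blk]
  | cons k L ih =>
    have : blk (k :: L) = (List.replicate k 0 ++ [1]) ++ blk L := by simp [blk]
    rw [this, List.foldl_append, foldl_block, ih]
    simp

theorem dcd_blk (L : List ℕ) : dcd (blk L) = (0, L) := by
  unfold dcd
  rw [dcd_blk_aux]
  simp

theorem foldl_mono (σ : List ℕ) (s : ℕ × List ℕ) : s.2 <+: (σ.foldl stp s).2 := by
  induction σ generalizing s with
  | nil => exact List.prefix_refl _
  | cons b σ ih =>
    rw [List.foldl_cons]
    refine List.IsPrefix.trans ?_ (ih _)
    unfold stp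
    split_ifs
    · exact List.prefix_refl _
    · exact List.prefix_append _ _

theorem dcd_mono {σ τ : List ℕ} (h : σ <+: τ) : (dcd σ).2 <+: (dcd τ).2 := by
  obtain ⟨ρ, rfl⟩ := h
  unfold dcd
  rw [List.foldl_append]
  exact foldl_mono _ _

theorem blk_append (L L' : List ℕ) : blk (L ++ L') = blk L ++ blk L' := by
  simp [blk]

theorem length_blk (L : List ℕ) : L.length ≤ (blk L).length := by
  induction L with
  | nil => simp [blk]
  | cons k L ih =>
    have : blk (k :: L) = (List.replicate k 0 ++ [1]) ++ blk L := by simp [blk]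
    rw [this]
    simp only [List.length_append, List.length_replicate, List.length_cons, List.length_nil]
    omega

theorem blk_lt (L : List ℕ) : ∀ b ∈ blk L, b < 2 := by
  intro b hb
  unfold blk at hb
  rw [List.mem_flatMap] at hb
  obtain ⟨k, -, hk⟩ := hb
  rw [List.mem_append, List.mem_replicate] at hk
  rcases hk with h | h
  · omega
  · rw [List.mem_singleton] at h
    omega

/-- the member of `2^ω` coding `k` -/
def yy (k : ℕ → ℕ) : ℕ → ℕ := fun j => (blk ((List.range (j + 1)).map k)).getD j 0

theorem range_prefix {k : ℕ → ℕ} {n m : ℕ} (h : n ≤ m) :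
    (List.range n).map k <+: (List.range m).map k := by
  obtain ⟨d, rfl⟩ := Nat.exists_eq_add_of_le h
  rw [List.range_add, List.map_append]
  exact List.prefix_append _ _

theorem blk_prefix {L L' : List ℕ} (h : L <+: L') : blk L <+: blk L' := by
  obtain ⟨ρ, rfl⟩ := h
  rw [blk_append]
  exact List.prefix_append _ _

theorem getD_prefix {L L' : List ℕ} (h : L <+: L') {i : ℕ} (hi : i < L.length) :
    L'.getD i 0 = L.getD i 0 := by
  obtain ⟨ρ, rfl⟩ := h
  rw [List.getD_append _ _ _ _ hi]

theorem yy_getD {k : ℕ → ℕ} {r j : ℕ} (h : j < (blk ((List.range r).map k)).length) :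
    yy k j = (blk ((List.range r).map k)).getD j 0 := by
  unfold yy
  have h1 : j < (blk ((List.range (j + 1)).map k)).length := by
    have := length_blk ((List.range (j + 1)).map k)
    simp only [List.length_map, List.length_range] at this
    omega
  rcases Nat.le_total (j + 1) r with h2 | h2
  · exact (getD_prefix (blk_prefix (range_prefix h2)) h1).symm
  · exact getD_prefix (blk_prefix (range_prefix h2)) h

theorem yy_res {k : ℕ → ℕ} {r n : ℕ} (h : n ≤ (blk ((List.range r).map k)).length) :
    (List.range n).map (yy k) = (blk ((List.range r).map k)).take n := by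
  apply List.ext_getElem
  · simp [h]
  · intro i h1 h2
    simp only [List.length_map, List.length_range] at h1
    rw [List.getElem_map, List.getElem_range, List.getElem_take,
      yy_getD (r := r) (by omega)]
    rw [List.getD_eq_getElem]

theorem yy_lt (k : ℕ → ℕ) (j : ℕ) : yy k j < 2 := by
  have h1 : j < (blk ((List.range (j + 1)).map k)).length := by
    have := length_blk ((List.range (j + 1)).map k)
    simp only [List.length_map, List.length_range] at this
    omega
  unfold yy
  rw [List.getD_eq_getElem _ _ h1]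
  exact blk_lt _ _ (List.getElem_mem h1)

theorem yy_full (k : ℕ → ℕ) (r : ℕ) :
    (List.range (blk ((List.range r).map k)).length).map (yy k) = blk ((List.range r).map k) := by
  rw [yy_res le_rfl, List.take_length]

theorem yy_inj {k k' : ℕ → ℕ} (h : yy k = yy k') : k = k' := by
  funext i
  have key : ∀ (k k' : ℕ → ℕ), yy k = yy k' → (blk ((List.range (i + 1)).map k)).length ≤
      (blk ((List.range (i + 1)).map k')).length → k i = k' i := by
    intro k k' h hle
    have h1 : blk ((List.range (i + 1)).map k) <+: blk ((List.range (i + 1)).map k') := by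
      rw [← yy_full k, ← yy_full k', h]
      exact range_prefix hle
    have h2 := dcd_mono h1
    rw [dcd_blk, dcd_blk] at h2
    have h3 := h2.eq_of_length (by simp)
    exact res_eq' h3 i (Nat.lt_succ_self i)
  rcases Nat.le_total (blk ((List.range (i + 1)).map k)).length
      (blk ((List.range (i + 1)).map k')).length with h1 | h1
  · exact key k k' h h1
  · exact (key k' k h.symm h1).symm
where
  res_eq' {f g : ℕ → ℕ} {n : ℕ} (h : (List.range n).map g = (List.range n).map f) :
      ∀ i, i < n → g i = f i := by
    intro i hi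
    have := congrArg (fun l => l.getD i 0) h
    simp only [getD_res hi] at this
    exact this

theorem yy_dcd (k : ℕ → ℕ) (n : ℕ) :
    (dcd ((List.range n).map (yy k))).2 <+: (List.range n).map k := by
  have h1 : n ≤ (blk ((List.range n).map k)).length := by
    have := length_blk ((List.range n).map k)
    simpa using this
  rw [yy_res h1]
  have h2 := dcd_mono (List.take_prefix n (blk ((List.range n).map k)))
  rwa [dcd_blk] at h2

theorem length_foldl (σ : List ℕ) (s : ℕ × List ℕ) :
    (σ.foldl stp s).2.length ≤ s.2.length + σ.sum := by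
  induction σ generalizing s with
  | nil => simp
  | cons b σ ih =>
    rw [List.foldl_cons, List.sum_cons]
    refine (ih _).trans ?_
    unfold stp
    split_ifs with h
    · simp only; omega
    · simp only [List.length_append, List.length_cons, List.length_nil]; omega

theorem length_dcd (σ : List ℕ) : (dcd σ).2.length ≤ σ.sum := by
  have := length_foldl σ (0, [])
  unfold dcd
  simpa using this

theorem prefix_range {k : ℕ → ℕ} {L : List ℕ} {n : ℕ} (h : L <+: (List.range n).map k) :
    L = (List.range L.length).map k := by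
  have h2 := List.prefix_iff_eq_take.1 h
  have h3 : L.length ≤ n := by
    have := h.length_le
    simpa using this
  rw [← List.map_take, List.take_range, Nat.min_eq_left h3] at h2
  exact h2

theorem tail_tail (k : ℕ → ℕ) (r : ℕ) :
    (((List.range (r + 2)).map k).tail.tail).map (fun a => a / 2) =
      (List.range r).map (fun i => k (i + 2) / 2) := by
  rw [List.range_succ_eq_map, List.range_succ_eq_map]
  simp only [List.map_cons, List.tail_cons, List.map_map]
  rfl

/-! ## The class -/

/-- the tree of the class -/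
def RX (R : ℕ × List ℕ → Bool) (x : ℕ) (σ : List ℕ) : Bool :=
  decide ((dcd σ).2.length ≤ 1) || R (x, ((dcd σ).2.tail.tail).map (fun a => a / 2))

theorem prim_dcd : Primrec dcd := by
  have h1 : Primrec₂ (fun (_ : List ℕ) (p : (ℕ × List ℕ) × ℕ) => stp p.1 p.2) := by
    have h2 : Primrec (fun q : List ℕ × ((ℕ × List ℕ) × ℕ) => stp q.2.1 q.2.2) := by
      unfold stp
      refine Primrec.ite ?_ ?_ ?_
      · exact PrimrecRel.comp (R := fun a b : ℕ => a = b) Primrec.eq
          (Primrec.snd.comp Primrec.snd) (Primrec.const 0)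
      · exact (Primrec.succ.comp (Primrec.fst.comp (Primrec.fst.comp Primrec.snd))).pair
          (Primrec.snd.comp (Primrec.fst.comp Primrec.snd))
      · exact (Primrec.const 0).pair (Primrec.list_append.comp
          (Primrec.snd.comp (Primrec.fst.comp Primrec.snd))
          (Primrec.list_cons.comp (Primrec.fst.comp (Primrec.fst.comp Primrec.snd))
            (Primrec.const [])))
    exact h2.to₂
  exact Primrec.list_foldl (f := fun σ : List ℕ => σ) (g := fun _ => ((0 : ℕ), ([] : List ℕ)))
    Primrec.id (Primrec.const _) h1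

theorem comp_RX {R : ℕ × List ℕ → Bool} (hR : Computable R) : Computable₂ (RX R) := by
  have h0 : Primrec (fun q : ℕ × List ℕ => (dcd q.2).2) :=
    Primrec.snd.comp (prim_dcd.comp Primrec.snd)
  have h1 : Computable (fun q : ℕ × List ℕ => decide ((dcd q.2).2.length ≤ 1)) :=
    comp_dle (Primrec.list_length.comp h0).to_comp (Computable.const 1)
  have h2 : Primrec (fun q : ℕ × List ℕ => ((dcd q.2).2.tail.tail).map (fun a => a / 2)) := by
    have h3 : Primrec₂ (fun (_ : ℕ × List ℕ) (a : ℕ) => a / 2) :=
      Primrec.nat_div.comp Primrec.snd (Primrec.const 2)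
    exact Primrec.list_map (Primrec.list_tail.comp (Primrec.list_tail.comp h0)) h3
  have h4 : Computable (fun q : ℕ × List ℕ =>
      R (q.1, ((dcd q.2).2.tail.tail).map (fun a => a / 2))) :=
    hR.comp (Computable.fst.pair h2.to_comp)
  have h5 := comp_or h1 h4
  exact h5.to₂

theorem dl_mem (R : ℕ × List ℕ → Bool) (x k n : ℕ) :
    RX R x ((List.range n).map (dl k)) = true := by
  unfold RX
  rw [Bool.or_eq_true]
  left
  rw [decide_eq_true_eq]
  refine (length_dcd _).trans ?_
  rw [sum_dl]
  split_ifs <;> omega

/-- `k` with free parities from place `2` on -/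
def kg (f0 : ℕ → ℕ) (g : ℕ → Bool) (i : ℕ) : ℕ :=
  if i < 2 then 0 else 2 * f0 (i - 2) + (g (i - 2)).toNat

theorem kg_half (f0 : ℕ → ℕ) (g : ℕ → Bool) (i : ℕ) : kg f0 g (i + 2) / 2 = f0 i := by
  unfold kg
  rw [if_neg (by omega)]
  have : (g (i + 2 - 2)).toNat < 2 := by cases g (i + 2 - 2) <;> simp
  have h2 : i + 2 - 2 = i := by omega
  rw [h2] at this ⊢
  omega

theorem kg_inj (f0 : ℕ → ℕ) {g g' : ℕ → Bool} (h : kg f0 g = kg f0 g') : g = g' := by
  funext i
  have h1 := congrFun h (i + 2)
  unfold kg at h1
  rw [if_neg (by omega), if_neg (by omega)] at h1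
  have h2 : i + 2 - 2 = i := by omega
  rw [h2] at h1
  have h3 : (g i).toNat = (g' i).toNat := by omega
  cases h4 : g i <;> cases h5 : g' i <;> simp [h4, h5] at h3 ⊢

theorem kg_mem {R : ℕ × List ℕ → Bool} {x : ℕ} {f0 : ℕ → ℕ}
    (h : ∀ n, R (x, (List.range n).map f0) = true) (g : ℕ → Bool) (n : ℕ) :
    RX R x ((List.range n).map (yy (kg f0 g))) = true := by
  unfold RX
  rw [Bool.or_eq_true, decide_eq_true_eq]
  have h1 := prefix_range (yy_dcd (kg f0 g) n)
  rcases Nat.lt_or_ge (dcd ((List.range n).map (yy (kg f0 g)))).2.length 2 with h2 | h2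
  · left; omega
  · right
    obtain ⟨r, hr⟩ := Nat.exists_eq_add_of_le h2
    rw [h1, hr, add_comm 2 r, tail_tail]
    simp only [kg_half]
    exact h r

theorem countable_ev_zero : {y : ℕ → ℕ | ∃ n0, ∀ n, n0 ≤ n → y n = 0}.Countable := by
  refine (Set.countable_range (fun (l : List ℕ) (i : ℕ) => l.getD i 0)).mono ?_
  rintro y ⟨n0, hn0⟩
  refine ⟨(List.range n0).map y, ?_⟩
  funext i
  rcases Nat.lt_or_ge i n0 with h | h
  · exact getD_res h
  · rw [hn0 i h]
    simp [List.getD, h]

theorem sat_of_not_ev_zero {R : ℕ × List ℕ → Bool} {x : ℕ} {y : ℕ → ℕ}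
    (hy : ∀ n, RX R x ((List.range n).map y) = true) (hz : ¬ ∃ n0, ∀ n, n0 ≤ n → y n = 0) :
    ∃ f0 : ℕ → ℕ, ∀ n, R (x, (List.range n).map f0) = true := by
  push Not at hz
  let L : ℕ → List ℕ := fun n => (dcd ((List.range n).map y)).2
  have hLmono : ∀ n m, n ≤ m → L n <+: L m := fun n m h => dcd_mono (range_prefix h)
  have hLs : ∀ n, (L (n + 1)).length = (L n).length + if y n = 0 then 0 else 1 := by
    intro n
    show (dcd ((List.range (n + 1)).map y)).2.length = _
    rw [List.range_succ, List.map_append]
    unfold dcd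
    rw [List.foldl_append]
    show (stp _ (y n)).2.length = _
    unfold stp
    split_ifs
    · rfl
    · simp only [List.length_append, List.length_cons, List.length_nil]
      rfl
  have hunb : ∀ r, ∃ n, r ≤ (L n).length := by
    intro r
    induction r with
    | zero => exact ⟨0, Nat.zero_le _⟩
    | succ r ih =>
      obtain ⟨n, hn⟩ := ih
      obtain ⟨m, hm, hym⟩ := hz n
      refine ⟨m + 1, ?_⟩
      rw [hLs, if_neg hym]
      have := (hLmono n m hm).length_le
      omega
  choose N hN using hunb
  let k : ℕ → ℕ := fun i => (L (N (i + 1))).getD i 0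
  have hk : ∀ n, L n = (List.range (L n).length).map k := by
    intro n
    apply List.ext_getElem
    · simp
    · intro i h1 h2
      rw [List.getElem_map, List.getElem_range]
      have h3 : i < (L (N (i + 1))).length := hN (i + 1)
      show _ = (L (N (i + 1))).getD i 0
      rw [← List.getD_eq_getElem _ 0 h1]
      rcases Nat.le_total n (N (i + 1)) with h4 | h4
      · exact (getD_prefix (hLmono _ _ h4) h1).symm
      · exact getD_prefix (hLmono _ _ h4) h3
  have hex : ∀ r, ∃ n, (L n).length = r := by
    intro r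
    classical
    have h1 : ∃ n, r ≤ (L n).length := ⟨N r, hN r⟩
    refine ⟨Nat.find h1, le_antisymm ?_ (Nat.find_spec h1)⟩
    rcases Nat.eq_zero_or_pos (Nat.find h1) with h0 | h0
    · rw [h0]
      have : (L 0).length = 0 := rfl
      omega
    · have h2 := Nat.find_min h1 (Nat.sub_lt h0 one_pos)
      have h3 := hLs (Nat.find h1 - 1)
      rw [Nat.sub_add_cancel h0] at h3
      rw [h3]
      split_ifs <;> omega
  refine ⟨fun i => k (i + 2) / 2, fun r => ?_⟩
  obtain ⟨n, hn⟩ := hex (r + 2)
  have h1 := hy n
  unfold RX at h1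
  rw [Bool.or_eq_true, decide_eq_true_eq] at h1
  rcases h1 with h1 | h1
  · have : (L n).length ≤ 1 := h1
    omega
  · have h2 : R (x, ((L n).tail.tail).map (fun a => a / 2)) = true := h1
    rw [hk n, hn, tail_tail] at h2
    exact h2

/-- Hardness: for every `Σ¹₁` set `X` there is a computable function `f` such that `Q_b \ Q_a` is
uncountable if `x ∈ X`, and countably infinite otherwise, for `f x = ⟨a, b⟩`. -/
theorem unc_hard (hπ : EffEnum π) {X : Set ℕ} (hX : Sigma11 X) :
    ∃ f : ℕ → ℕ, Computable f ∧ (∀ x, x ∈ X ↔ ¬ (DD π (f x)).Countable) ∧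
      ∀ x, (DD π (f x)).Infinite := by
  obtain ⟨R, hR, hXR⟩ := hX
  obtain ⟨a0, ha0⟩ := exists_zero hπ
  obtain ⟨f, hf, hfQ⟩ := realize hπ (comp_RX hR)
  have hDD : ∀ x, DD π (Nat.pair a0 (f x)) =
      {y | (∀ n, RX R x ((List.range n).map y) = true) ∧ ∀ n, y n < 2} \ {fun _ => 0} := by
    intro x
    unfold DD
    rw [Nat.unpair_pair, ha0, hfQ]
  refine ⟨fun x => Nat.pair a0 (f x),
    Primrec₂.natPair.to_comp.comp (Computable.const a0) hf, fun x => ?_, fun x => ?_⟩
  · rw [hXR x, hDD x]
    constructor
    · rintro ⟨f0, hf0⟩ hc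
      have h1 : {y : ℕ → ℕ | (∀ n, RX R x ((List.range n).map y) = true) ∧
          ∀ n, y n < 2}.Countable := by
        refine (hc.insert (fun _ => 0)).mono fun y hy => ?_
        by_cases h : y = fun _ => 0
        · exact Or.inl h
        · exact Or.inr ⟨hy, h⟩
      let F : (ℕ → Bool) → (ℕ → ℕ) := fun g => yy (kg f0 g)
      have hinj : Function.Injective F := fun g g' h => kg_inj f0 (yy_inj h)
      have h2 : (Set.range F).Countable := by
        refine h1.mono ?_
        rintro _ ⟨g, rfl⟩
        exact ⟨fun n => kg_mem hf0 g n, yy_lt _⟩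
      have h3 := h2.to_subtype
      exact not_countable_bool (Set.rangeFactorization_injective.2 hinj).countable
    · intro hc
      by_contra hcon
      apply hc
      refine (countable_ev_zero.mono ?_)
      rintro y ⟨⟨hy, -⟩, -⟩
      by_contra hz
      exact hcon (sat_of_not_ev_zero hy hz)
  · rw [hDD x]
    refine (Set.infinite_range_of_injective dl_inj).mono ?_
    rintro _ ⟨k, rfl⟩
    refine ⟨⟨fun n => dl_mem R x k n, fun n => ?_⟩, fun h => ?_⟩
    · unfold dl
      split_ifs <;> omega
    · have := congrFun h k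
      simp [dl] at this

end Pool.R534.ID
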